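import Pool.Agent.H707.NB.Blk

/-! The mean over the indices. -/

open Filter Topology Set MeasureTheory

namespace Pool.Agent.H707.NB

open SG (ord NZ)
open Pool.Agent.TH873.EW (ct mom XV)
open Pool.Agent.Y747 (Bx mem_Bx)
open Pool.Agent.H707.SM (Bx_eq XV_large mc mc_nonneg mc_le tl tl_nonneg Jm mom_val)
open LG (dlt)

/-- the truncated lower part -/
noncomputable def lc (x s : ℝ) : ℝ := min x (max 0 (x - s))

lemma lc_nonneg {x s : ℝ} (hx : 0 ≤ x) : 0 ≤ lc x s := le_min hx (le_max_left _ _)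
lemma lc_le (x s : ℝ) : lc x s ≤ x := min_le_left _ _

/-- the truncated sum -/
noncomputable def FB (q R : ℕ) (B x : ℝ) (n : ℕ) : ℝ :=
  2 * ∑ r ∈ Finset.Icc 1 q, mc B x (sp n r) + 2 * ∑ r ∈ Finset.Icc (q + 1) (q + R), lc x (sp n r)

lemma FB_nonneg {q R : ℕ} {B x : ℝ} (hB : 0 ≤ B) (hx : 0 ≤ x) (n : ℕ) : 0 ≤ FB q R B x n := by
  have h1 : 0 ≤ ∑ r ∈ Finset.Icc 1 q, mc B x (sp n r) := Finset.sum_nonneg fun _ _ => mc_nonneg hB
  have h2 : 0 ≤ ∑ r ∈ Finset.Icc (q + 1) (q + R), lc x (sp n r) :=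
    Finset.sum_nonneg fun _ _ => lc_nonneg hx
  unfold FB
  linarith

lemma FB_le {q R : ℕ} {B x : ℝ} (n : ℕ) : FB q R B x n ≤ 2 * (q * B) + 2 * (R * x) := by
  have h1 : ∑ r ∈ Finset.Icc 1 q, mc B x (sp n r) ≤ ∑ r ∈ Finset.Icc 1 q, B :=
    Finset.sum_le_sum fun _ _ => mc_le _ _ _
  have h2 : ∑ r ∈ Finset.Icc (q + 1) (q + R), lc x (sp n r) ≤
      ∑ r ∈ Finset.Icc (q + 1) (q + R), x := Finset.sum_le_sum fun _ _ => lc_le _ _
  rw [Finset.sum_const, nsmul_eq_mul, Nat.card_Icc, Nat.add_sub_cancel] at h1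
  rw [Finset.sum_const, nsmul_eq_mul, Nat.card_Icc, show q + R + 1 - (q + 1) = R by omega] at h2
  unfold FB
  linarith

lemma exc {V : ℝ} {r : ℕ} {f : ℕ → ℝ} {D : ℝ} (hf : ∀ n, f n ≤ D) (hD : 0 ≤ D) :
    ∑ n ∈ (Bx V).filter (fun n => ¬ n + r ∈ Bx V), f n ≤ r * D := by
  classical
  have h1 : ((Bx V).filter (fun n => ¬ n + r ∈ Bx V)).card ≤ r := by
    have hsub : (Bx V).filter (fun n => ¬ n + r ∈ Bx V) ⊆
        Finset.Ioc (NZ (2 * V - 1) - r) (NZ (2 * V - 1)) := by
      intro n hn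
      rw [Finset.mem_filter, Bx_eq, Finset.mem_Icc, Finset.mem_Icc] at hn
      rw [Finset.mem_Ioc]
      omega
    have := Finset.card_le_card hsub
    rw [Nat.card_Ioc] at this
    omega
  calc ∑ n ∈ (Bx V).filter (fun n => ¬ n + r ∈ Bx V), f n ≤
      ∑ n ∈ (Bx V).filter (fun n => ¬ n + r ∈ Bx V), D := Finset.sum_le_sum fun n _ => hf n
    _ = (((Bx V).filter (fun n => ¬ n + r ∈ Bx V)).card : ℝ) * D := by
        rw [Finset.sum_const, nsmul_eq_mul]
    _ ≤ r * D := by
      apply mul_le_mul_of_nonneg_right _ hD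
      exact_mod_cast h1

/-- **the mean of the truncated sums** -/
theorem mean_all (hRH : RiemannHypothesis) {g : ℝ → ℝ} (hg : ContDiff ℝ 1 g) (h1 : g 1 = 0) {x : ℝ}
    (hx : 0 < x) (hmaj : ∀ u, max 0 (x - |u|) ≤ ct g u) (q R : ℕ)
    {B : ℝ} (hB : 0 ≤ B) {ε : ℝ} (hε : 0 < ε) :
    ∀ᶠ N : ℕ in atTop, ∑ n ∈ Finset.Icc 1 N, FB q R B x n ≤
      ((mom g - (2 * q + 1) * x + q * (q + 1)) + ε) * N := by
  classical
  have hq0 : (0 : ℝ) ≤ q := Nat.cast_nonneg q
  have hR0 : (0 : ℝ) ≤ R := Nat.cast_nonneg R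
  set A : ℝ := mom g - (2 * q + 1) * x + q * (q + 1) with hA
  apply Pool.Agent.Y747.average hRH A (2 * (q * B) + 2 * (R * x)) (FB q R B x)
    (FB_nonneg hB hx.le) FB_le _ ε hε
  intro ε hε
  set M : ℝ := 4 * |A| + 16 * q * x + 8 with hM
  have hM8 : 8 ≤ M := by
    have := abs_nonneg A
    have : 0 ≤ 16 * (q : ℝ) * x := by positivity
    linarith
  set e : ℝ := min (1 / 2) (ε / M) with he
  have he0 : 0 < e := lt_min (by norm_num) (by positivity)
  have he1 : e ≤ 1 / 2 := min_le_left _ _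
  have heM : e * M ≤ ε := by
    have : e ≤ ε / M := min_le_right _ _
    rwa [le_div_iff₀ (by linarith)] at this
  set E : ℝ := 2 * (q * (q * B)) + 2 * (R * ((q + R) * x)) with hE
  obtain ⟨μ, hμe, hμ1, hμ0, V0, hV0, hblk⟩ := block hRH hg h1 hx hmaj q R he0
  obtain ⟨V1, hV1⟩ := sp_le e he0
  obtain ⟨V2, hV2⟩ := XV_large (max 1 (E / e))
  refine ⟨max V0 (max V1 V2), hV0.trans (le_max_left _ _), fun V hV => ?_⟩
  have c1 : V0 ≤ V := (le_max_left _ _).trans hV
  have c2 : V1 ≤ V := ((le_max_left _ _).trans (le_max_right _ _)).trans hV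
  have c3 : V2 ≤ V := ((le_max_right _ _).trans (le_max_right _ _)).trans hV
  have hV10 : 10 ≤ V := hV0.trans c1
  obtain ⟨b1, b2⟩ := hblk V c1
  have b3 := hV2 V c3
  set X := XV V with hX
  have hX1 : 1 ≤ X := (le_max_left _ _).trans b3
  have hXB : E ≤ e * X := by
    have := (le_max_right _ _).trans b3
    rw [div_le_iff₀ he0] at this
    linarith
  have hlogV : 0 < Real.log V := Real.log_pos (by linarith)
  have hpi := Real.pi_pos
  set c : ℝ := (1 + e) / μ with hc
  have hμh : 1 / 2 ≤ μ := by linarith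
  have hc1 : 1 ≤ c := by
    rw [hc, le_div_iff₀ hμ0]
    linarith
  have hc2 : c ≤ 1 + 4 * e := by
    rw [hc, div_le_iff₀ hμ0]
    nlinarith
  set U : ℕ → ℝ := fun r => ∑ n ∈ (Bx V).filter (fun n => n + r ∈ Bx V),
    max 0 (μ * Real.log V / (2 * Real.pi) * (ord (n + r) - ord n) - x) with hU
  set L : ℕ → ℝ := fun r => ∑ n ∈ (Bx V).filter (fun n => n + r ∈ Bx V),
    max 0 (x - μ * Real.log V / (2 * Real.pi) * (ord (n + r) - ord n)) with hL
  have hL0 : ∀ r, 0 ≤ L r := fun r => Finset.sum_nonneg fun _ _ => le_max_left _ _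
  have hU0 : ∀ r, 0 ≤ U r := fun r => Finset.sum_nonneg fun _ _ => le_max_left _ _
  have hcard0 : (0 : ℝ) ≤ (Bx V).card := Nat.cast_nonneg _
  -- one distance, upper part
  have hup : ∀ r : ℕ, ∑ n ∈ Bx V, mc B x (sp n r) ≤ c * U r + 4 * e * x * (Bx V).card + r * B := by
    intro r
    rw [← Finset.sum_filter_add_sum_filter_not (Bx V) (fun n => n + r ∈ Bx V)]
    have h2 := exc (V := V) (r := r) (f := fun n => mc B x (sp n r)) (D := B)
      (fun n => mc_le _ _ _) hB
    have hmain : ∀ n ∈ (Bx V).filter (fun n => n + r ∈ Bx V), mc B x (sp n r) ≤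
        c * max 0 (μ * Real.log V / (2 * Real.pi) * (ord (n + r) - ord n) - x) + 4 * e * x := by
      intro n hn
      rw [Finset.mem_filter] at hn
      have h2 := (hV1 V c2 n r hn.1 hn.2).1
      set D : ℝ := μ * Real.log V / (2 * Real.pi) * (ord (n + r) - ord n) with hD
      have h3 : (1 + e) * (Real.log V / (2 * Real.pi) * (ord (n + r) - ord n)) = c * D := by
        rw [hc, hD]
        field_simp
      rw [h3] at h2
      refine (min_le_right _ _).trans ?_
      have hD0 : 0 ≤ max 0 (D - x) := le_max_left _ _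
      have hD1 : D - x ≤ max 0 (D - x) := le_max_right _ _
      apply max_le
      · positivity
      · have h4 : c * (D - x) ≤ c * max 0 (D - x) := mul_le_mul_of_nonneg_left hD1 (by linarith)
        have h5 : (c - 1) * x ≤ 4 * e * x := mul_le_mul_of_nonneg_right (by linarith) hx.le
        have h6 : c * (D - x) = c * D - c * x := by ring
        have h7 : (c - 1) * x = c * x - x := by ring
        linarith
    have hsum := Finset.sum_le_sum hmain
    rw [Finset.sum_add_distrib, Finset.sum_const, nsmul_eq_mul, ← Finset.mul_sum] at hsum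
    have hcf : (((Bx V).filter (fun n => n + r ∈ Bx V)).card : ℝ) ≤ (Bx V).card := by
      exact_mod_cast Finset.card_le_card (Finset.filter_subset _ _)
    have h3 : (((Bx V).filter (fun n => n + r ∈ Bx V)).card : ℝ) * (4 * e * x) ≤
        (Bx V).card * (4 * e * x) := mul_le_mul_of_nonneg_right hcf (by positivity)
    have h4 : ((Bx V).card : ℝ) * (4 * e * x) = 4 * e * x * (Bx V).card := by ring
    simp only [hU]
    linarith
  -- one distance, lower part
  have hlo : ∀ r : ℕ, ∑ n ∈ Bx V, lc x (sp n r) ≤ c * L r + r * x := by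
    intro r
    rw [← Finset.sum_filter_add_sum_filter_not (Bx V) (fun n => n + r ∈ Bx V)]
    have h2 := exc (V := V) (r := r) (f := fun n => lc x (sp n r)) (D := x)
      (fun n => lc_le _ _) hx.le
    have hmain : ∀ n ∈ (Bx V).filter (fun n => n + r ∈ Bx V), lc x (sp n r) ≤
        max 0 (x - μ * Real.log V / (2 * Real.pi) * (ord (n + r) - ord n)) := by
      intro n hn
      rw [Finset.mem_filter] at hn
      have h2 := (hV1 V c2 n r hn.1 hn.2).2
      have hn1 := (mem_Bx.1 hn.1).1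
      have h3 : 0 ≤ ord (n + r) - ord n := sub_nonneg.2 (SG.ord_mono hn1 (by omega))
      have h4 : μ * Real.log V / (2 * Real.pi) * (ord (n + r) - ord n) =
          μ * (Real.log V / (2 * Real.pi) * (ord (n + r) - ord n)) := by ring
      have h5 : 0 ≤ Real.log V / (2 * Real.pi) * (ord (n + r) - ord n) := by positivity
      have h6 : μ * (Real.log V / (2 * Real.pi) * (ord (n + r) - ord n)) ≤
          1 * (Real.log V / (2 * Real.pi) * (ord (n + r) - ord n)) :=
        mul_le_mul_of_nonneg_right hμ1.le h5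
      refine (min_le_right _ _).trans ?_
      apply max_le_max le_rfl
      rw [h4]
      linarith
    have hsum := Finset.sum_le_sum hmain
    have h3 : L r ≤ c * L r := by
      have := mul_le_mul_of_nonneg_right hc1 (hL0 r)
      linarith
    have h4 : ∑ n ∈ (Bx V).filter (fun n => n + r ∈ Bx V), lc x (sp n r) ≤ L r := hsum
    linarith
  -- the sum
  have hswap : ∑ n ∈ Bx V, FB q R B x n = 2 * ∑ r ∈ Finset.Icc 1 q, ∑ n ∈ Bx V, mc B x (sp n r) +
      2 * ∑ r ∈ Finset.Icc (q + 1) (q + R), ∑ n ∈ Bx V, lc x (sp n r) := by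
    unfold FB
    rw [Finset.sum_add_distrib, ← Finset.mul_sum, ← Finset.mul_sum, Finset.sum_comm]
    congr 2
    exact Finset.sum_comm
  have hs1 : ∑ r ∈ Finset.Icc 1 q, ∑ n ∈ Bx V, mc B x (sp n r) ≤
      c * ∑ r ∈ Finset.Icc 1 q, U r + q * (4 * e * x * (Bx V).card) + q * (q * B) := by
    calc ∑ r ∈ Finset.Icc 1 q, ∑ n ∈ Bx V, mc B x (sp n r) ≤
        ∑ r ∈ Finset.Icc 1 q, (c * U r + (4 * e * x * (Bx V).card + q * B)) := by
          apply Finset.sum_le_sum
          intro r hr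
          rw [Finset.mem_Icc] at hr
          have h2 := hup r
          have h3 : (r : ℝ) * B ≤ q * B := by
            apply mul_le_mul_of_nonneg_right _ hB
            exact_mod_cast hr.2
          linarith
      _ = _ := by
        rw [Finset.sum_add_distrib, ← Finset.mul_sum, Finset.sum_const, nsmul_eq_mul,
          Nat.card_Icc, Nat.add_sub_cancel]
        ring
  have hs2 : ∑ r ∈ Finset.Icc (q + 1) (q + R), ∑ n ∈ Bx V, lc x (sp n r) ≤
      c * ∑ r ∈ Finset.Icc (q + 1) (q + R), L r + R * ((q + R) * x) := by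
    calc ∑ r ∈ Finset.Icc (q + 1) (q + R), ∑ n ∈ Bx V, lc x (sp n r) ≤
        ∑ r ∈ Finset.Icc (q + 1) (q + R), (c * L r + (q + R) * x) := by
          apply Finset.sum_le_sum
          intro r hr
          rw [Finset.mem_Icc] at hr
          have h2 := hlo r
          have h3 : (r : ℝ) * x ≤ (q + R) * x := by
            apply mul_le_mul_of_nonneg_right _ hx.le
            exact_mod_cast hr.2
          linarith
      _ = _ := by
        rw [Finset.sum_add_distrib, ← Finset.mul_sum, Finset.sum_const, nsmul_eq_mul,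
          Nat.card_Icc, show q + R + 1 - (q + 1) = R by omega]
  rw [hswap]
  obtain ⟨W, hW⟩ : ∃ W, W = 2 * ∑ r ∈ Finset.Icc 1 q, U r +
    2 * ∑ r ∈ Finset.Icc (q + 1) (q + R), L r := ⟨_, rfl⟩
  have hW0 : 0 ≤ W := by
    have a1 : 0 ≤ ∑ r ∈ Finset.Icc 1 q, U r := Finset.sum_nonneg fun r _ => hU0 r
    have a2 : 0 ≤ ∑ r ∈ Finset.Icc (q + 1) (q + R), L r := Finset.sum_nonneg fun r _ => hL0 r
    rw [hW]
    linarith
  have h5 : W ≤ (A + e) * X := by
    rw [hW]
    exact b1
  have h8 : c * W ≤ (A + e * (4 * |A| + 3)) * X := by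
    have h9 : 0 ≤ (A + e) * X := hW0.trans h5
    calc c * W ≤ c * ((A + e) * X) := mul_le_mul_of_nonneg_left h5 (by linarith)
      _ ≤ (1 + 4 * e) * ((A + e) * X) := mul_le_mul_of_nonneg_right hc2 h9
      _ = (A + e * (4 * A + 1 + 4 * e)) * X := by ring
      _ ≤ _ := by
        apply mul_le_mul_of_nonneg_right _ (by linarith)
        have i1 := le_abs_self A
        have i2 : e * (4 * A + 1 + 4 * e) ≤ e * (4 * |A| + 3) :=
          mul_le_mul_of_nonneg_left (by linarith) he0.le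
        linarith
  have h11 : 2 * ((q : ℝ) * (4 * e * x * (Bx V).card)) ≤ e * (16 * q * x) * X := by
    calc 2 * ((q : ℝ) * (4 * e * x * (Bx V).card)) = (8 * q * e * x) * (Bx V).card := by ring
      _ ≤ (8 * q * e * x) * (2 * X) := by
          apply mul_le_mul_of_nonneg_left _ (by positivity)
          refine b2.trans ?_
          exact mul_le_mul_of_nonneg_right (by linarith) (by linarith)
      _ = _ := by ring
  have h12 : e * M * X ≤ ε * X := mul_le_mul_of_nonneg_right heM (by linarith)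
  have h13 : e * M * X = e * (4 * |A| + 3) * X + e * (16 * q * x) * X + 5 * (e * X) := by
    rw [hM]; ring
  have h14 : 0 ≤ e * X := mul_nonneg he0.le (by linarith)
  have h15 : (A + e * (4 * |A| + 3)) * X = A * X + e * (4 * |A| + 3) * X := by ring
  have h16 : (A + ε) * X = A * X + ε * X := by ring
  have h17 : c * W = 2 * (c * ∑ r ∈ Finset.Icc 1 q, U r) +
      2 * (c * ∑ r ∈ Finset.Icc (q + 1) (q + R), L r) := by rw [hW]; ring
  rw [h16]
  linarith

end Pool.Agent.H707.NB
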