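import Pool.Agent.H707.NB.Avg

/-! The untruncated mean. -/

open Filter Topology Set MeasureTheory

namespace Pool.Agent.H707.NB

open SG (ord NZ)
open Pool.Agent.H707.SM (mc mc_nonneg mc_le tl tl_nonneg Jm mom_val hk cd_hk hk_one tent_le
  const_small dlt_nonneg tail_dlt)
open LG (dlt)

lemma shift {f : ℕ → ℝ} (hf : ∀ n, 0 ≤ f n) {j m N : ℕ} (hj : j ≤ m) :
    ∑ n ∈ Finset.Icc 1 N, f (n + j) ≤ ∑ n ∈ Finset.Icc 1 (N + m), f n := by
  classical
  have h1 : ∑ n ∈ Finset.Icc 1 N, f (n + j) =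
      ∑ n ∈ (Finset.Icc 1 N).image (fun n => n + j), f n := by
    rw [Finset.sum_image]
    intro a _ b _ hab
    simpa using hab
  rw [h1]
  apply Finset.sum_le_sum_of_subset_of_nonneg
  · intro n hn
    rw [Finset.mem_image] at hn
    obtain ⟨k, hk, rfl⟩ := hn
    rw [Finset.mem_Icc] at hk ⊢
    omega
  · intro n _ _
    exact hf n

lemma le_tl {K : ℕ} (hK : 1 ≤ K) (d : ℝ) : d ≤ K + tl K d := by
  have hK1 : (1 : ℝ) ≤ K := by exact_mod_cast hK
  unfold tl
  split_ifs with h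
  · nlinarith
  · linarith

lemma sp_le_tl {K : ℕ} (hK : 1 ≤ K) {m r : ℕ} (hr : r ≤ m) (n : ℕ) :
    sp n r ≤ m * K + ∑ j ∈ Finset.range m, tl K (dlt (n + j)) := by
  rw [← sp_sum]
  have h1 : ∑ j ∈ Finset.range r, dlt (n + j) ≤ ∑ j ∈ Finset.range r, ((K : ℝ) + tl K (dlt (n + j))) :=
    Finset.sum_le_sum fun j _ => le_tl hK _
  have h2 : ∑ j ∈ Finset.range r, ((K : ℝ) + tl K (dlt (n + j))) ≤
      ∑ j ∈ Finset.range m, ((K : ℝ) + tl K (dlt (n + j))) := by
    apply Finset.sum_le_sum_of_subset_of_nonneg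
    · intro j hj
      rw [Finset.mem_range] at hj ⊢
      omega
    · intro j _ _
      have := tl_nonneg K (dlt (n + j))
      have : (0 : ℝ) ≤ K := Nat.cast_nonneg K
      linarith
  have h3 : ∑ j ∈ Finset.range m, ((K : ℝ) + tl K (dlt (n + j))) =
      m * K + ∑ j ∈ Finset.range m, tl K (dlt (n + j)) := by
    rw [Finset.sum_add_distrib, Finset.sum_const, nsmul_eq_mul, Finset.card_range]
  linarith

lemma up_pt {B x s T : ℝ} (hx : 0 ≤ x) (hB : 0 ≤ B) (hT : 0 ≤ T) (h : s ≤ B + T) :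
    max 0 (s - x) ≤ mc B x s + T := by
  unfold mc
  rcases le_total B (max 0 (s - x)) with h1 | h1
  · rw [min_eq_left h1]
    exact max_le (by linarith) (by linarith)
  · rw [min_eq_right h1]
    linarith

lemma lo_pt {x s : ℝ} (hx : 0 ≤ x) : max 0 (x - s) ≤ lc x s + |s| := by
  unfold lc
  have h0 := abs_nonneg s
  have h1 := neg_abs_le s
  rcases le_total x (max 0 (x - s)) with h2 | h2
  · rw [min_eq_left h2]
    exact max_le (by linarith) (by linarith)
  · rw [min_eq_right h2]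
    linarith

lemma lo_pt' {x s : ℝ} (hx : 0 ≤ x) (hs : 0 ≤ s) : max 0 (x - s) = lc x s := by
  unfold lc
  rw [min_eq_right]
  exact max_le hx (by linarith)

/-- **the sum over all neighbours** -/
theorem main (hRH : RiemannHypothesis) (m R : ℕ) {ε : ℝ} (hε : 0 < ε) :
    ∀ᶠ N : ℕ in atTop, ∑ n ∈ Finset.Icc 1 N,
      (∑ r ∈ Finset.Icc 1 m, max 0 (sp n r - ((m : ℝ) + 1 / 2)) +
        ∑ r ∈ Finset.Icc (m + 1) (m + R), max 0 ((m : ℝ) + 1 / 2 - sp n r)) ≤
      (Jm m / 2 + ε) * N := by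
  classical
  have hm0 : (0 : ℝ) ≤ m := Nat.cast_nonneg m
  obtain ⟨x, hx⟩ : ∃ x : ℝ, x = (m : ℝ) + 1 / 2 := ⟨_, rfl⟩
  have hx0 : 0 < x := by rw [hx]; positivity
  have hE0 : 0 < ε / (4 * ((m : ℝ) * m + 1)) := by positivity
  obtain ⟨K0, hK0⟩ := tail_dlt hRH hE0
  set K := max K0 1 with hK
  have hK1 : 1 ≤ K := le_max_right _ _
  set B : ℝ := m * K with hB
  have hB0 : 0 ≤ B := by positivity
  obtain ⟨n0, hn0⟩ := dlt_nonneg
  set D : ℝ := ∑ n ∈ Finset.range n0, ∑ r ∈ Finset.Icc (m + 1) (m + R), |sp n r| with hD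
  have hav := mean_all hRH (cd_hk ((m : ℝ) + 1 / 2) m) (hk_one _ _) (x := (m : ℝ) + 1 / 2)
    (by positivity) (tent_le m) m R hB0 (ε := ε / 2) (by positivity)
  rw [mom_val, ← hx] at hav
  filter_upwards [hav, const_small D (ε / 4) (by positivity), eventually_ge_atTop (max m 1)]
    with N h1 h2 hN
  have hNm : m ≤ N := (le_max_left _ _).trans hN
  have hN1 : 1 ≤ N := (le_max_right _ _).trans hN
  have hN0 : (0 : ℝ) ≤ N := Nat.cast_nonneg N
  rw [← hx]
  -- the tails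
  have ht := hK0 K (le_max_left _ _) (N + m) (by omega)
  set T : ℝ := ∑ n ∈ Finset.Icc 1 (N + m), tl K (dlt n) with hT
  have hT0 : 0 ≤ T := Finset.sum_nonneg fun n _ => tl_nonneg K _
  have hT1 : (m : ℝ) * m * T ≤ ε / 2 * N := by
    have a1 : T ≤ ε / (4 * ((m : ℝ) * m + 1)) * (2 * N) := by
      refine ht.trans ?_
      apply mul_le_mul_of_nonneg_left _ hE0.le
      have : (m : ℝ) ≤ N := by exact_mod_cast hNm
      push_cast
      linarith
    have a2 : (m : ℝ) * m * T ≤ ((m : ℝ) * m + 1) * T :=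
      mul_le_mul_of_nonneg_right (by linarith) hT0
    have a3 : ((m : ℝ) * m + 1) * T ≤ ((m : ℝ) * m + 1) * (ε / (4 * ((m : ℝ) * m + 1)) * (2 * N)) :=
      mul_le_mul_of_nonneg_left a1 (by positivity)
    have a4 : ((m : ℝ) * m + 1) * (ε / (4 * ((m : ℝ) * m + 1)) * (2 * N)) = ε / 2 * N := by
      have : (m : ℝ) * m + 1 ≠ 0 := by positivity
      field_simp
      ring
    linarith
  -- the upper part
  have hU : ∑ n ∈ Finset.Icc 1 N, ∑ r ∈ Finset.Icc 1 m, max 0 (sp n r - x) ≤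
      ∑ n ∈ Finset.Icc 1 N, ∑ r ∈ Finset.Icc 1 m, mc B x (sp n r) + m * m * T := by
    have b1 : ∀ n ∈ Finset.Icc 1 N, ∑ r ∈ Finset.Icc 1 m, max 0 (sp n r - x) ≤
        ∑ r ∈ Finset.Icc 1 m, mc B x (sp n r) + m * ∑ j ∈ Finset.range m, tl K (dlt (n + j)) := by
      intro n _
      calc ∑ r ∈ Finset.Icc 1 m, max 0 (sp n r - x) ≤
          ∑ r ∈ Finset.Icc 1 m, (mc B x (sp n r) + ∑ j ∈ Finset.range m, tl K (dlt (n + j))) := by
            apply Finset.sum_le_sum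
            intro r hr
            rw [Finset.mem_Icc] at hr
            exact up_pt hx0.le hB0 (Finset.sum_nonneg fun j _ => tl_nonneg K _)
              (sp_le_tl hK1 hr.2 n)
        _ = _ := by
          rw [Finset.sum_add_distrib, Finset.sum_const, nsmul_eq_mul, Nat.card_Icc,
            Nat.add_sub_cancel]
    have b2 := Finset.sum_le_sum b1
    rw [Finset.sum_add_distrib, ← Finset.mul_sum] at b2
    have b3 : ∑ n ∈ Finset.Icc 1 N, ∑ j ∈ Finset.range m, tl K (dlt (n + j)) ≤ m * T := by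
      rw [Finset.sum_comm]
      calc ∑ j ∈ Finset.range m, ∑ n ∈ Finset.Icc 1 N, tl K (dlt (n + j)) ≤
          ∑ j ∈ Finset.range m, T := by
            apply Finset.sum_le_sum
            intro j hj
            rw [Finset.mem_range] at hj
            exact shift (f := fun n => tl K (dlt n)) (fun n => tl_nonneg K _) hj.le
        _ = _ := by rw [Finset.sum_const, nsmul_eq_mul, Finset.card_range]
    have b4 : (m : ℝ) * ∑ n ∈ Finset.Icc 1 N, ∑ j ∈ Finset.range m, tl K (dlt (n + j)) ≤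
        m * (m * T) := mul_le_mul_of_nonneg_left b3 hm0
    linarith
  -- the lower part
  have hL : ∑ n ∈ Finset.Icc 1 N, ∑ r ∈ Finset.Icc (m + 1) (m + R), max 0 (x - sp n r) ≤
      ∑ n ∈ Finset.Icc 1 N, ∑ r ∈ Finset.Icc (m + 1) (m + R), lc x (sp n r) + D := by
    have b1 : ∀ n ∈ Finset.Icc 1 N, ∑ r ∈ Finset.Icc (m + 1) (m + R), max 0 (x - sp n r) ≤
        ∑ r ∈ Finset.Icc (m + 1) (m + R), lc x (sp n r) +
        (if n ∈ Finset.range n0 then ∑ r ∈ Finset.Icc (m + 1) (m + R), |sp n r| else 0) := by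
      intro n _
      split_ifs with h
      · rw [← Finset.sum_add_distrib]
        exact Finset.sum_le_sum fun r _ => lo_pt hx0.le
      · rw [Finset.mem_range, not_lt] at h
        rw [add_zero]
        apply Finset.sum_le_sum
        intro r _
        have hs : 0 ≤ sp n r := by
          rw [← sp_sum]
          exact Finset.sum_nonneg fun j _ => hn0 _ (by omega)
        exact (lo_pt' hx0.le hs).le
    have b2 := Finset.sum_le_sum b1
    rw [Finset.sum_add_distrib] at b2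
    have b3 : ∑ n ∈ Finset.Icc 1 N,
        (if n ∈ Finset.range n0 then ∑ r ∈ Finset.Icc (m + 1) (m + R), |sp n r| else 0) ≤ D := by
      rw [← Finset.sum_filter]
      apply Finset.sum_le_sum_of_subset_of_nonneg
      · intro n hn
        exact (Finset.mem_filter.1 hn).2
      · intro n _ _
        exact Finset.sum_nonneg fun r _ => abs_nonneg _
    linarith
  unfold FB at h1
  rw [Finset.sum_add_distrib, ← Finset.mul_sum, ← Finset.mul_sum] at h1
  rw [Finset.sum_add_distrib]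
  have e1 : (Jm m + ε / 2) * (N : ℝ) = Jm m * N + ε / 2 * N := by ring
  have e2 : (Jm m / 2 + ε) * (N : ℝ) = Jm m * N / 2 + ε * N := by ring
  rw [e1] at h1
  rw [e2]
  have e3 : (m : ℝ) * m * T ≤ ε / 2 * N := hT1
  linarith

/-- **the mean deviation of the sums of `r + 1` consecutive gaps** -/
theorem dev (hRH : RiemannHypothesis) (r : ℕ) {ε : ℝ} (hε : 0 < ε) :
    ∀ᶠ N : ℕ in atTop, ∑ n ∈ Finset.Icc 1 N, |sp n (r + 1) - ((r : ℝ) + 1)| ≤
      (1 / 2 + (Jm r + Jm (r + 1)) / 2 + ε) * N := by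
  filter_upwards [main hRH (r + 1) 0 (ε := ε / 2) (by positivity),
    main hRH r 1 (ε := ε / 2) (by positivity)] with N h1 h2
  have hN0 : (0 : ℝ) ≤ N := Nat.cast_nonneg N
  have hpt : ∀ n ∈ Finset.Icc 1 N, |sp n (r + 1) - ((r : ℝ) + 1)| ≤ 1 / 2 +
      (∑ s ∈ Finset.Icc 1 (r + 1), max 0 (sp n s - (((r + 1 : ℕ) : ℝ) + 1 / 2)) +
        ∑ s ∈ Finset.Icc (r + 1 + 1) (r + 1 + 0), max 0 (((r + 1 : ℕ) : ℝ) + 1 / 2 - sp n s)) +
      (∑ s ∈ Finset.Icc 1 r, max 0 (sp n s - ((r : ℝ) + 1 / 2)) +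
        ∑ s ∈ Finset.Icc (r + 1) (r + 1), max 0 ((r : ℝ) + 1 / 2 - sp n s)) := by
    intro n _
    have a1 : max 0 (sp n (r + 1) - (((r + 1 : ℕ) : ℝ) + 1 / 2)) ≤
        ∑ s ∈ Finset.Icc 1 (r + 1), max 0 (sp n s - (((r + 1 : ℕ) : ℝ) + 1 / 2)) :=
      Finset.single_le_sum (f := fun s => max 0 (sp n s - (((r + 1 : ℕ) : ℝ) + 1 / 2)))
        (fun _ _ => le_max_left _ _) (Finset.mem_Icc.2 ⟨by omega, le_rfl⟩)
    have a2 : 0 ≤ ∑ s ∈ Finset.Icc (r + 1 + 1) (r + 1 + 0),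
        max 0 (((r + 1 : ℕ) : ℝ) + 1 / 2 - sp n s) := Finset.sum_nonneg fun _ _ => le_max_left _ _
    have a3 : 0 ≤ ∑ s ∈ Finset.Icc 1 r, max 0 (sp n s - ((r : ℝ) + 1 / 2)) :=
      Finset.sum_nonneg fun _ _ => le_max_left _ _
    have a4 : ∑ s ∈ Finset.Icc (r + 1) (r + 1), max 0 ((r : ℝ) + 1 / 2 - sp n s) =
        max 0 ((r : ℝ) + 1 / 2 - sp n (r + 1)) := by
      rw [Finset.Icc_self, Finset.sum_singleton]
    rw [a4]
    push_cast at a1 a2 ⊢
    have m1 := le_max_left 0 (sp n (r + 1) - ((r : ℝ) + 1 + 1 / 2))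
    have m2 := le_max_right 0 (sp n (r + 1) - ((r : ℝ) + 1 + 1 / 2))
    have m3 := le_max_left 0 ((r : ℝ) + 1 / 2 - sp n (r + 1))
    have m4 := le_max_right 0 ((r : ℝ) + 1 / 2 - sp n (r + 1))
    rw [abs_le]
    constructor <;> linarith
  have hsum := Finset.sum_le_sum hpt
  rw [Finset.sum_add_distrib, Finset.sum_add_distrib, Finset.sum_const, nsmul_eq_mul,
    Nat.card_Icc, Nat.add_sub_cancel] at hsum
  have e1 : (1 / 2 + (Jm r + Jm (r + 1)) / 2 + ε) * (N : ℝ) = N * (1 / 2) +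
      (Jm (r + 1) / 2 + ε / 2) * N + (Jm r / 2 + ε / 2) * N := by ring
  rw [e1]
  linarith

end Pool.Agent.H707.NB
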