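import Pool.Agent.H707.NB.AvgW
import Pool.Agent.H707.NB.Fin

/-! The untruncated weighted mean. -/

open Filter Topology Set MeasureTheory

namespace Pool.Agent.H707.NB

open SG (ord NZ)
open Pool.Agent.H707.SM (mc mc_nonneg mc_le tl tl_nonneg Jm mom_val hk cd_hk hk_one tent_le
  const_small dlt_nonneg tail_dlt)
open LG (dlt)

/-- the sum of the tails over shifted indices -/
lemma tail_shift (hRH : RiemannHypothesis) (P : ℕ) {ε : ℝ} (hε : 0 < ε) :
    ∃ K0 : ℕ, ∀ K : ℕ, K0 ≤ K → ∀ N : ℕ, max P 1 ≤ N →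
      ∑ n ∈ Finset.Icc 1 N, ∑ j ∈ Finset.range P, tl K (dlt (n + j)) ≤ ε * N := by
  have hP0 : (0 : ℝ) ≤ P := Nat.cast_nonneg P
  have hE0 : 0 < ε / (2 * ((P : ℝ) + 1)) := by positivity
  obtain ⟨K0, hK0⟩ := tail_dlt hRH hE0
  refine ⟨K0, fun K hK N hN => ?_⟩
  have hNP : P ≤ N := (le_max_left _ _).trans hN
  have hN1 : 1 ≤ N := (le_max_right _ _).trans hN
  have ht := hK0 K hK (N + P) (by omega)
  set T : ℝ := ∑ n ∈ Finset.Icc 1 (N + P), tl K (dlt n) with hT
  have hT0 : 0 ≤ T := Finset.sum_nonneg fun n _ => tl_nonneg K _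
  have b3 : ∑ n ∈ Finset.Icc 1 N, ∑ j ∈ Finset.range P, tl K (dlt (n + j)) ≤ P * T := by
    rw [Finset.sum_comm]
    calc ∑ j ∈ Finset.range P, ∑ n ∈ Finset.Icc 1 N, tl K (dlt (n + j)) ≤
        ∑ j ∈ Finset.range P, T := by
          apply Finset.sum_le_sum
          intro j hj
          rw [Finset.mem_range] at hj
          exact shift (f := fun n => tl K (dlt n)) (fun n => tl_nonneg K _) hj.le
      _ = _ := by rw [Finset.sum_const, nsmul_eq_mul, Finset.card_range]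
  have a1 : T ≤ ε / (2 * ((P : ℝ) + 1)) * (2 * N) := by
    refine ht.trans ?_
    apply mul_le_mul_of_nonneg_left _ hE0.le
    have : (P : ℝ) ≤ N := by exact_mod_cast hNP
    push_cast
    linarith
  have a2 : (P : ℝ) * T ≤ ((P : ℝ) + 1) * T :=
    mul_le_mul_of_nonneg_right (by linarith) hT0
  have a3 : ((P : ℝ) + 1) * T ≤ ((P : ℝ) + 1) * (ε / (2 * ((P : ℝ) + 1)) * (2 * N)) :=
    mul_le_mul_of_nonneg_left a1 (by positivity)
  have a4 : ((P : ℝ) + 1) * (ε / (2 * ((P : ℝ) + 1)) * (2 * N)) = ε * N := by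
    have : (P : ℝ) + 1 ≠ 0 := by positivity
    field_simp
  linarith

/-- **the weighted sum over all neighbours** -/
theorem mainW (hRH : RiemannHypothesis) (m P : ℕ) {u v : ℕ → ℝ}
    (hu : ∀ r, 0 ≤ u r) (hv : ∀ r, 0 ≤ v r)
    (hw : ∀ M : ℕ, ∑ r ∈ Finset.Icc 1 P, (u r * ((r - M : ℕ) : ℝ) + v r * ((M - r : ℕ) : ℝ)) ≤
      (M : ℝ) ^ 2 - (2 * m + 1) * M + m * (m + 1)) {ε : ℝ} (hε : 0 < ε) :
    ∀ᶠ N : ℕ in atTop, ∑ n ∈ Finset.Icc 1 N, ∑ r ∈ Finset.Icc 1 P,
      (u r * max 0 (sp n r - ((m : ℝ) + 1 / 2)) + v r * max 0 ((m : ℝ) + 1 / 2 - sp n r)) ≤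
      (Jm m + ε) * N := by
  classical
  have hm0 : (0 : ℝ) ≤ m := Nat.cast_nonneg m
  obtain ⟨x, hx⟩ : ∃ x : ℝ, x = (m : ℝ) + 1 / 2 := ⟨_, rfl⟩
  have hx0 : 0 < x := by rw [hx]; positivity
  set Su : ℝ := ∑ r ∈ Finset.Icc 1 P, u r with hSu
  have hSu0 : 0 ≤ Su := Finset.sum_nonneg fun r _ => hu r
  have hE0 : 0 < ε / (4 * (Su + 1)) := by positivity
  obtain ⟨K0, hK0⟩ := tail_shift hRH P hE0
  set K := max K0 1 with hK
  have hK1 : 1 ≤ K := le_max_right _ _
  set B : ℝ := P * K with hB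
  have hB0 : 0 ≤ B := by positivity
  obtain ⟨n0, hn0⟩ := dlt_nonneg
  set D : ℝ := ∑ n ∈ Finset.range n0, ∑ r ∈ Finset.Icc 1 P, v r * |sp n r| with hD
  have hav := meanW hRH (cd_hk ((m : ℝ) + 1 / 2) m) (hk_one _ _) (x := (m : ℝ) + 1 / 2)
    (by positivity) (tent_le m) m P hu hv hw hB0 (ε := ε / 2) (by positivity)
  rw [mom_val, ← hx] at hav
  filter_upwards [hav, const_small D (ε / 4) (by positivity), eventually_ge_atTop (max P 1)]
    with N h1 h2 hN
  have hN0 : (0 : ℝ) ≤ N := Nat.cast_nonneg N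
  rw [← hx]
  have ht := hK0 K (le_max_left _ _) N hN
  have ht2 : Su * ∑ n ∈ Finset.Icc 1 N, ∑ j ∈ Finset.range P, tl K (dlt (n + j)) ≤ ε / 4 * N := by
    obtain ⟨T, hT⟩ : ∃ T, T = ∑ n ∈ Finset.Icc 1 N, ∑ j ∈ Finset.range P, tl K (dlt (n + j)) :=
      ⟨_, rfl⟩
    have hT0 : 0 ≤ T := by
      rw [hT]
      exact Finset.sum_nonneg fun n _ => Finset.sum_nonneg fun j _ => tl_nonneg K _
    rw [← hT] at ht ⊢
    have a2 : Su * T ≤ (Su + 1) * T := mul_le_mul_of_nonneg_right (by linarith) hT0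
    have a3 : (Su + 1) * T ≤ (Su + 1) * (ε / (4 * (Su + 1)) * N) :=
      mul_le_mul_of_nonneg_left ht (by positivity)
    have a4 : (Su + 1) * (ε / (4 * (Su + 1)) * N) = ε / 4 * N := by
      have : Su + 1 ≠ 0 := by positivity
      field_simp
    linarith
  have hpt : ∀ n ∈ Finset.Icc 1 N, ∑ r ∈ Finset.Icc 1 P,
      (u r * max 0 (sp n r - x) + v r * max 0 (x - sp n r)) ≤ FW P u v B x n +
      Su * ∑ j ∈ Finset.range P, tl K (dlt (n + j)) +
      (if n ∈ Finset.range n0 then ∑ r ∈ Finset.Icc 1 P, v r * |sp n r| else 0) := by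
    intro n _
    have hT0 : 0 ≤ ∑ j ∈ Finset.range P, tl K (dlt (n + j)) :=
      Finset.sum_nonneg fun j _ => tl_nonneg K _
    have hup : ∀ r ∈ Finset.Icc 1 P, u r * max 0 (sp n r - x) ≤
        u r * mc B x (sp n r) + u r * ∑ j ∈ Finset.range P, tl K (dlt (n + j)) := by
      intro r hr
      rw [Finset.mem_Icc] at hr
      rw [← mul_add]
      exact mul_le_mul_of_nonneg_left (up_pt hx0.le hB0 hT0 (sp_le_tl hK1 hr.2 n)) (hu r)
    have hup' := Finset.sum_le_sum hup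
    rw [Finset.sum_add_distrib, ← Finset.sum_mul] at hup'
    rw [Finset.sum_add_distrib]
    unfold FW
    rw [Finset.sum_add_distrib]
    split_ifs with h
    · have hlo : ∀ r ∈ Finset.Icc 1 P, v r * max 0 (x - sp n r) ≤
          v r * lc x (sp n r) + v r * |sp n r| := by
        intro r _
        rw [← mul_add]
        exact mul_le_mul_of_nonneg_left (lo_pt hx0.le) (hv r)
      have hlo' := Finset.sum_le_sum hlo
      rw [Finset.sum_add_distrib] at hlo'
      linarith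
    · rw [Finset.mem_range, not_lt] at h
      have hlo : ∀ r ∈ Finset.Icc 1 P, v r * max 0 (x - sp n r) ≤ v r * lc x (sp n r) := by
        intro r _
        have hs : 0 ≤ sp n r := by
          rw [← sp_sum]
          exact Finset.sum_nonneg fun j _ => hn0 _ (by omega)
        exact mul_le_mul_of_nonneg_left (lo_pt' hx0.le hs).le (hv r)
      have hlo' := Finset.sum_le_sum hlo
      linarith
  have hsum := Finset.sum_le_sum hpt
  rw [Finset.sum_add_distrib, Finset.sum_add_distrib, ← Finset.mul_sum] at hsum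
  have b3 : ∑ n ∈ Finset.Icc 1 N,
      (if n ∈ Finset.range n0 then ∑ r ∈ Finset.Icc 1 P, v r * |sp n r| else 0) ≤ D := by
    rw [← Finset.sum_filter]
    apply Finset.sum_le_sum_of_subset_of_nonneg
    · intro n hn
      exact (Finset.mem_filter.1 hn).2
    · intro n _ _
      exact Finset.sum_nonneg fun r _ => mul_nonneg (hv r) (abs_nonneg _)
  have e2 : (Jm m + ε) * (N : ℝ) = (Jm m + ε / 2) * N + ε / 4 * N + ε / 4 * N := by ring
  rw [e2]
  linarith

lemma cast_sub_max (a b : ℕ) : ((a - b : ℕ) : ℝ) = max 0 ((a : ℝ) - b) := by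
  rcases le_total b a with h | h
  · rw [Nat.cast_sub h, max_eq_right]
    have : (b : ℝ) ≤ a := by exact_mod_cast h
    linarith
  · rw [Nat.sub_eq_zero_of_le h, Nat.cast_zero, max_eq_left]
    have : (a : ℝ) ≤ b := by exact_mod_cast h
    linarith

/-- the product of two consecutive integers is nonnegative -/
lemma consec (a : ℤ) : 0 ≤ (a : ℝ) * (a - 1) := by
  rcases le_or_gt a 0 with h | h
  · have : (a : ℝ) ≤ 0 := by exact_mod_cast h
    nlinarith
  · have : (1 : ℝ) ≤ a := by exact_mod_cast h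
    nlinarith

/-- one sum, large values -/
theorem one_up (hRH : RiemannHypothesis) {m r : ℕ} (hr : 1 ≤ r) {c : ℝ} (hc : 0 < c)
    (h : ∀ M : ℕ, M ≤ r → c * ((r : ℝ) - M) ≤ ((m : ℝ) - M) * (m + 1 - M)) {ε : ℝ} (hε : 0 < ε) :
    ∀ᶠ N : ℕ in atTop, ∑ n ∈ Finset.Icc 1 N, max 0 (sp n r - ((m : ℝ) + 1 / 2)) ≤
      (Jm m / c + ε) * N := by
  classical
  have h1 := mainW hRH m r (u := fun s => if s = r then c else 0) (v := fun _ => 0)
    (fun s => by split_ifs <;> linarith) (fun _ => le_rfl) (by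
      intro M
      simp only [zero_mul, add_zero, ite_mul]
      rw [Finset.sum_ite_eq' (Finset.Icc 1 r) r]
      rw [if_pos (Finset.mem_Icc.2 ⟨hr, le_rfl⟩)]
      have e : (M : ℝ) ^ 2 - (2 * m + 1) * M + m * (m + 1) = ((m : ℝ) - M) * (m + 1 - M) := by ring
      rw [e]
      rcases le_total M r with h2 | h2
      · rw [Nat.cast_sub h2]
        exact h M h2
      · rw [Nat.sub_eq_zero_of_le h2, Nat.cast_zero, mul_zero]
        have := consec ((M : ℤ) - m)
        push_cast at this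
        have e2 : ((m : ℝ) - M) * (m + 1 - M) = ((M : ℝ) - m) * ((M : ℝ) - m - 1) := by ring
        rw [e2]
        exact this) (ε := c * ε) (by positivity)
  filter_upwards [h1] with N hN
  simp only [zero_mul, add_zero, ite_mul] at hN
  have e3 : ∀ n : ℕ, ∑ s ∈ Finset.Icc 1 r, (if s = r then c * max 0 (sp n s - ((m : ℝ) + 1 / 2)) else 0) =
      c * max 0 (sp n r - ((m : ℝ) + 1 / 2)) := by
    intro n
    rw [Finset.sum_ite_eq' (Finset.Icc 1 r) r]
    rw [if_pos (Finset.mem_Icc.2 ⟨hr, le_rfl⟩)]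
  simp only [e3] at hN
  rw [← Finset.mul_sum] at hN
  have e4 : (Jm m + c * ε) * (N : ℝ) = c * ((Jm m / c + ε) * N) := by
    field_simp
  rw [e4] at hN
  exact le_of_mul_le_mul_left hN hc

/-- one sum, small values -/
theorem one_lo (hRH : RiemannHypothesis) {m r : ℕ} (hr : 1 ≤ r) {c : ℝ} (hc : 0 < c)
    (h : ∀ M : ℕ, r ≤ M → c * ((M : ℝ) - r) ≤ ((M : ℝ) - m) * (M - m - 1)) {ε : ℝ} (hε : 0 < ε) :
    ∀ᶠ N : ℕ in atTop, ∑ n ∈ Finset.Icc 1 N, max 0 ((m : ℝ) + 1 / 2 - sp n r) ≤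
      (Jm m / c + ε) * N := by
  classical
  have h1 := mainW hRH m r (v := fun s => if s = r then c else 0) (u := fun _ => 0)
    (fun _ => le_rfl) (fun s => by split_ifs <;> linarith) (by
      intro M
      simp only [zero_mul, zero_add, ite_mul]
      rw [Finset.sum_ite_eq' (Finset.Icc 1 r) r]
      rw [if_pos (Finset.mem_Icc.2 ⟨hr, le_rfl⟩)]
      have e : (M : ℝ) ^ 2 - (2 * m + 1) * M + m * (m + 1) = ((M : ℝ) - m) * (M - m - 1) := by ring
      rw [e]
      rcases le_total r M with h2 | h2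
      · rw [Nat.cast_sub h2]
        exact h M h2
      · rw [Nat.sub_eq_zero_of_le h2, Nat.cast_zero, mul_zero]
        have := consec ((M : ℤ) - m)
        push_cast at this
        exact this) (ε := c * ε) (by positivity)
  filter_upwards [h1] with N hN
  simp only [zero_mul, zero_add, ite_mul] at hN
  have e3 : ∀ n : ℕ, ∑ s ∈ Finset.Icc 1 r, (if s = r then c * max 0 ((m : ℝ) + 1 / 2 - sp n s) else 0) =
      c * max 0 ((m : ℝ) + 1 / 2 - sp n r) := by
    intro n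
    rw [Finset.sum_ite_eq' (Finset.Icc 1 r) r]
    rw [if_pos (Finset.mem_Icc.2 ⟨hr, le_rfl⟩)]
  simp only [e3] at hN
  rw [← Finset.mul_sum] at hN
  have e4 : (Jm m + c * ε) * (N : ℝ) = c * ((Jm m / c + ε) * N) := by
    field_simp
  rw [e4] at hN
  exact le_of_mul_le_mul_left hN hc

end Pool.Agent.H707.NB
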