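import Pool.Agent.H707.NB.WinW
import Pool.Agent.H707.NB.Avg

/-! The weighted sums over a block. -/

open Filter Topology Set MeasureTheory

namespace Pool.Agent.H707.NB

open SG (ord NZ)
open Pool.Agent.TH873.EW (ct mom XV)
open Pool.Agent.Y747 (Bx mem_Bx)
open Pool.Agent.H707.SM (Bx_eq XV_large pair_le fin_arith mc mc_nonneg mc_le tl tl_nonneg Jm mom_val
  hk cd_hk hk_one tent_le const_small dlt_nonneg tail_dlt)
open LG (dlt)

/-- the sums over the sums of consecutive gaps of a block -/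
theorem blockW (hRH : RiemannHypothesis) {g : ℝ → ℝ} (hg : ContDiff ℝ 1 g) (h1 : g 1 = 0) {x : ℝ}
    (hx : 0 < x) (hmaj : ∀ u, max 0 (x - |u|) ≤ ct g u) (q P : ℕ) {u v : ℕ → ℝ} (hu : ∀ r, 0 ≤ u r)
    (hv : ∀ r, 0 ≤ v r)
    (hw : ∀ M : ℕ, ∑ r ∈ Finset.Icc 1 P, (u r * ((r - M : ℕ) : ℝ) + v r * ((M - r : ℕ) : ℝ)) ≤
      (M : ℝ) ^ 2 - (2 * q + 1) * M + q * (q + 1)) {ε : ℝ} (hε : 0 < ε) :
    ∃ μ : ℝ, 1 - ε ≤ μ ∧ μ < 1 ∧ 0 < μ ∧ ∃ V0 : ℝ, 10 ≤ V0 ∧ ∀ V : ℝ, V0 ≤ V →
      ∑ r ∈ Finset.Icc 1 P, (u r * ∑ n ∈ (Bx V).filter (fun n => n + r ∈ Bx V),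
        max 0 (μ * Real.log V / (2 * Real.pi) * (ord (n + r) - ord n) - x) +
      v r * ∑ n ∈ (Bx V).filter (fun n => n + r ∈ Bx V),
        max 0 (x - μ * Real.log V / (2 * Real.pi) * (ord (n + r) - ord n))) ≤
      (mom g - (2 * q + 1) * x + q * (q + 1) + ε) * XV V ∧ ((Bx V).card : ℝ) ≤ (1 + ε) * XV V := by
  classical
  set I : ℝ := ∫ t in (0 : ℝ)..1, t * g t with hI
  have hmomI : mom g = g 0 + 2 * I := rfl
  have hq0 : (0 : ℝ) ≤ q := Nat.cast_nonneg q
  set B : ℝ := |mom g| + 4 + (2 * q + 1) * x + q * (q + 1) with hB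
  have hB4 : 4 ≤ B := by
    have := abs_nonneg (mom g)
    have : 0 ≤ (2 * (q : ℝ) + 1) * x := by positivity
    have : 0 ≤ (q : ℝ) * (q + 1) := by positivity
    linarith
  set e : ℝ := min (1 / 2) (ε / B) with he
  have he0 : 0 < e := lt_min (by norm_num) (by positivity)
  have he1 : e ≤ 1 / 2 := min_le_left _ _
  have heB : e * B ≤ ε := by
    have : e ≤ ε / B := min_le_right _ _
    rwa [le_div_iff₀ (by linarith)] at this
  have heε : e ≤ ε := by
    have : e * 1 ≤ e * B := mul_le_mul_of_nonneg_left (by linarith) he0.le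
    linarith
  -- choice of `μ`
  have hc : ContinuousAt (fun μ : ℝ => g 0 / μ + 2 * μ * I) 1 := by
    have : ContinuousAt (fun μ : ℝ => g 0 / μ) 1 :=
      continuousAt_const.div continuousAt_id one_ne_zero
    exact this.add (by fun_prop)
  have hev : ∀ᶠ μ in 𝓝[<] (1 : ℝ), g 0 / μ + 2 * μ * I < mom g + e := by
    apply nhdsWithin_le_nhds
    apply hc.eventually_lt continuousAt_const
    simp only [div_one, mul_one]
    linarith
  have hev2 : ∀ᶠ μ in 𝓝[<] (1 : ℝ), max (1 / 2) (1 - ε) < μ := by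
    apply nhdsWithin_le_nhds
    apply lt_mem_nhds
    exact max_lt (by norm_num) (by linarith)
  have hlt : ∀ᶠ s in 𝓝[<] (1 : ℝ), s < 1 := self_mem_nhdsWithin
  obtain ⟨μ, ⟨hμ1, hμ2⟩, hμ3⟩ := ((hev.and hev2).and hlt).exists
  have hμh : 1 / 2 < μ := (le_max_left _ _).trans_lt hμ2
  have hμpos : 0 < μ := by linarith
  have hμε : 1 - ε ≤ μ := ((le_max_right _ _).trans_lt hμ2).le
  refine ⟨μ, hμε, hμ3, hμpos, ?_⟩
  have hpi := Real.pi_gt_three
  obtain ⟨V1, hV1, hp⟩ := Pool.Agent.Y747.blk_pair hRH hg h1 hμpos hμ3 he0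
  obtain ⟨V2, hV2⟩ := XV_large (max 1 (x / e))
  have hlim : Tendsto (fun V : ℝ => μ * Real.log V / (2 * Real.pi)) atTop atTop :=
    (Real.tendsto_log_atTop.const_mul_atTop hμpos).atTop_div_const (by positivity)
  obtain ⟨V3, hV3⟩ := (hlim.eventually_ge_atTop (max 1 (x / e))).exists_forall_of_atTop
  refine ⟨max V1 (max V2 V3), hV1.trans (le_max_left _ _), fun V hV => ?_⟩
  have c1 : V1 ≤ V := (le_max_left _ _).trans hV
  have c2 : V2 ≤ V := ((le_max_left _ _).trans (le_max_right _ _)).trans hV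
  have c3 : V3 ≤ V := ((le_max_right _ _).trans (le_max_right _ _)).trans hV
  have hV10 : 10 ≤ V := hV1.trans c1
  obtain ⟨p1, p2⟩ := hp V c1
  have d2 := hV2 V c2
  have d3 := hV3 V c3
  set X := XV V with hX
  set κ : ℝ := μ * Real.log V / (2 * Real.pi) with hκ
  have hX1 : 1 ≤ X := (le_max_left _ _).trans d2
  have hXe : x ≤ e * X := by
    have := (le_max_right _ _).trans d2
    rw [div_le_iff₀ he0] at this
    linarith
  have hκ1 : 1 ≤ κ := (le_max_left _ _).trans d3
  have hκe : x ≤ e * κ := by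
    have := (le_max_right _ _).trans d3
    rw [div_le_iff₀ he0] at this
    linarith
  have hlogV : 0 < Real.log V := Real.log_pos (by linarith)
  have q1 := (abs_le.1 p1).1
  have q2 := (abs_le.1 p1).2
  refine ⟨?_, by
    have : e * X ≤ ε * X := mul_le_mul_of_nonneg_right heε (by linarith)
    linarith⟩
  -- the block is an interval
  set a := NZ (V + 1) + 1 with ha
  set b := NZ (2 * V - 1) with hb
  have hBx : Bx V = Finset.Icc a b := Bx_eq V
  have hab : a ≤ b := by
    by_contra h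
    have h0 : Bx V = ∅ := by
      rw [hBx, Finset.Icc_eq_empty]
      exact h
    rw [h0, Finset.card_empty, Nat.cast_zero] at q1
    have : e * X ≤ 1 / 2 * X := mul_le_mul_of_nonneg_right he1 (by linarith)
    linarith
  have haB : a ∈ Bx V := by rw [hBx]; exact Finset.mem_Icc.2 ⟨le_rfl, hab⟩
  have hbB : b ∈ Bx V := by rw [hBx]; exact Finset.mem_Icc.2 ⟨hab, le_rfl⟩
  set y : ℕ → ℝ := fun n => κ * ord n with hy
  have hymono : ∀ n k : ℕ, a ≤ n → n ≤ k → k ≤ b → y n ≤ y k := by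
    intro n k h2 h3 _
    simp only [hy]
    apply mul_le_mul_of_nonneg_left _ (by linarith)
    exact SG.ord_mono (by omega) h3
  have hw := window_w hab hymono hx q P hu hv hw
  have hfil : ∀ r : ℕ, (Bx V).filter (fun n => n + r ∈ Bx V) =
      (Finset.Icc a b).filter (fun n => n + r ≤ b) := by
    intro r
    ext n
    rw [Finset.mem_filter, Finset.mem_filter, hBx, Finset.mem_Icc, Finset.mem_Icc]
    omega
  have e1 : ∑ r ∈ Finset.Icc 1 P, (u r * ∑ n ∈ (Bx V).filter (fun n => n + r ∈ Bx V),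
        max 0 (κ * (ord (n + r) - ord n) - x) +
      v r * ∑ n ∈ (Bx V).filter (fun n => n + r ∈ Bx V),
        max 0 (x - κ * (ord (n + r) - ord n))) =
      ∑ r ∈ Finset.Icc 1 P, (u r * ∑ n ∈ (Finset.Icc a b).filter (fun n => n + r ≤ b),
        max 0 (y (n + r) - y n - x) +
      v r * ∑ n ∈ (Finset.Icc a b).filter (fun n => n + r ≤ b),
        max 0 (x - (y (n + r) - y n))) := by
    apply Finset.sum_congr rfl
    intro r _
    rw [hfil]
    congr 2
    · apply Finset.sum_congr rfl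
      intro n _
      simp only [hy]
      congr 2
      ring
    · apply Finset.sum_congr rfl
      intro n _
      simp only [hy]
      congr 2
      ring
  rw [e1]
  refine hw.trans ?_
  -- the pairs
  have hpair : ∑ n ∈ Finset.Icc a b, ∑ k ∈ Finset.Icc a b, max 0 (x - |y n - y k|) ≤
      (1 + e) * ∑ n ∈ Bx V, ∑ m ∈ Bx V, Real.exp (-(ord n - ord m) ^ 2 / 4) *
        ct g (κ * (ord n - ord m)) := by
    rw [hBx, Finset.mul_sum]
    apply Finset.sum_le_sum
    intro n _
    rw [Finset.mul_sum]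
    apply Finset.sum_le_sum
    intro k _
    have hyy : y n - y k = κ * (ord n - ord k) := by simp only [hy]; ring
    rw [hyy]
    exact pair_le (by linarith) hκe he0 he1 hmaj _
  have q3 := (abs_le.1 p2).2
  set P := ∑ n ∈ Bx V, ∑ m ∈ Bx V, Real.exp (-(ord n - ord m) ^ 2 / 4) *
        ct g (κ * (ord n - ord m)) with hP
  have hPle : P ≤ (mom g + 2 * e) * X := by
    have h6 : X * (g 0 / μ + 2 * μ * I) ≤ X * (mom g + e) :=
      mul_le_mul_of_nonneg_left hμ1.le (by linarith)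
    have h7 : (mom g + 2 * e) * X = X * (mom g + e) + e * X := by ring
    rw [h7]
    linarith
  -- the length
  have hlen : y b - y a ≤ X := by
    have h6 : ord b ≤ 2 * V - 1 := (mem_Bx.1 hbB).2.2
    have h7 : V + 1 < ord a := (mem_Bx.1 haB).2.1
    have h8 : y b - y a ≤ κ * (V - 2) := by
      simp only [hy]
      have : κ * (ord b - ord a) ≤ κ * (V - 2) :=
        mul_le_mul_of_nonneg_left (by linarith) (by linarith)
      linarith
    have h9 : κ * (V - 2) = μ * X := by
      rw [hκ, hX]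
      unfold Pool.Agent.TH873.EW.XV
      ring
    rw [h9] at h8
    have h10 : μ * X ≤ 1 * X := mul_le_mul_of_nonneg_right hμ3.le (by linarith)
    linarith
  have hcard : (1 - e) * X ≤ ((Finset.Icc a b).card : ℝ) := by
    rw [← hBx]
    linarith
  exact fin_arith he0 he1 hx hq0 (by linarith) hB heB hpair hPle hcard (by linarith)

/-- the truncated weighted sum -/
noncomputable def FW (P : ℕ) (u v : ℕ → ℝ) (B x : ℝ) (n : ℕ) : ℝ :=
  ∑ r ∈ Finset.Icc 1 P, (u r * mc B x (sp n r) + v r * lc x (sp n r))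

lemma FW_nonneg {P : ℕ} {u v : ℕ → ℝ} (hu : ∀ r, 0 ≤ u r) (hv : ∀ r, 0 ≤ v r) {B x : ℝ}
    (hB : 0 ≤ B) (hx : 0 ≤ x) (n : ℕ) : 0 ≤ FW P u v B x n :=
  Finset.sum_nonneg fun r _ =>
    add_nonneg (mul_nonneg (hu r) (mc_nonneg hB)) (mul_nonneg (hv r) (lc_nonneg hx))

lemma FW_le {P : ℕ} {u v : ℕ → ℝ} (hu : ∀ r, 0 ≤ u r) (hv : ∀ r, 0 ≤ v r) {B x : ℝ} (n : ℕ) :
    FW P u v B x n ≤ ∑ r ∈ Finset.Icc 1 P, (u r * B + v r * x) :=
  Finset.sum_le_sum fun r _ => add_le_add (mul_le_mul_of_nonneg_left (mc_le _ _ _) (hu r))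
    (mul_le_mul_of_nonneg_left (lc_le _ _) (hv r))

/-- **the mean of the truncated weighted sums** -/
theorem meanW (hRH : RiemannHypothesis) {g : ℝ → ℝ} (hg : ContDiff ℝ 1 g) (h1 : g 1 = 0) {x : ℝ}
    (hx : 0 < x) (hmaj : ∀ u, max 0 (x - |u|) ≤ ct g u) (q P : ℕ) {u v : ℕ → ℝ}
    (hu : ∀ r, 0 ≤ u r) (hv : ∀ r, 0 ≤ v r)
    (hw : ∀ M : ℕ, ∑ r ∈ Finset.Icc 1 P, (u r * ((r - M : ℕ) : ℝ) + v r * ((M - r : ℕ) : ℝ)) ≤
      (M : ℝ) ^ 2 - (2 * q + 1) * M + q * (q + 1))
    {B : ℝ} (hB : 0 ≤ B) {ε : ℝ} (hε : 0 < ε) :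
    ∀ᶠ N : ℕ in atTop, ∑ n ∈ Finset.Icc 1 N, FW P u v B x n ≤
      ((mom g - (2 * q + 1) * x + q * (q + 1)) + ε) * N := by
  classical
  set A : ℝ := mom g - (2 * q + 1) * x + q * (q + 1) with hA
  apply Pool.Agent.Y747.average hRH A (∑ r ∈ Finset.Icc 1 P, (u r * B + v r * x)) (FW P u v B x)
    (FW_nonneg hu hv hB hx.le) (FW_le hu hv) _ ε hε
  intro ε hε
  set Su : ℝ := ∑ r ∈ Finset.Icc 1 P, u r with hSu
  have hSu0 : 0 ≤ Su := Finset.sum_nonneg fun r _ => hu r
  set M : ℝ := 4 * |A| + 8 * Su * x + 8 with hM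
  have hM8 : 8 ≤ M := by
    have := abs_nonneg A
    have : 0 ≤ 8 * Su * x := by positivity
    linarith
  set e : ℝ := min (1 / 2) (ε / M) with he
  have he0 : 0 < e := lt_min (by norm_num) (by positivity)
  have he1 : e ≤ 1 / 2 := min_le_left _ _
  have heM : e * M ≤ ε := by
    have : e ≤ ε / M := min_le_right _ _
    rwa [le_div_iff₀ (by linarith)] at this
  set E : ℝ := ∑ r ∈ Finset.Icc 1 P, (u r * (r * B) + v r * (r * x)) with hE
  obtain ⟨μ, hμe, hμ1, hμ0, V0, hV0, hblk⟩ := blockW hRH hg h1 hx hmaj q P hu hv hw he0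
  obtain ⟨V1, hV1⟩ := sp_le e he0
  obtain ⟨V2, hV2⟩ := XV_large (max 1 (E / e))
  refine ⟨max V0 (max V1 V2), hV0.trans (le_max_left _ _), fun V hV => ?_⟩
  have c1 : V0 ≤ V := (le_max_left _ _).trans hV
  have c2 : V1 ≤ V := ((le_max_left _ _).trans (le_max_right _ _)).trans hV
  have c3 : V2 ≤ V := ((le_max_right _ _).trans (le_max_right _ _)).trans hV
  have hV10 : 10 ≤ V := hV0.trans c1
  obtain ⟨b1, b2⟩ := hblk V c1
  have b3 := hV2 V c3
  set X := XV V with hX
  have hX1 : 1 ≤ X := (le_max_left _ _).trans b3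
  have hXB : E ≤ e * X := by
    have := (le_max_right _ _).trans b3
    rw [div_le_iff₀ he0] at this
    linarith
  have hlogV : 0 < Real.log V := Real.log_pos (by linarith)
  have hpi := Real.pi_pos
  set c : ℝ := (1 + e) / μ with hc
  have hμh : 1 / 2 ≤ μ := by linarith
  have hc1 : 1 ≤ c := by
    rw [hc, le_div_iff₀ hμ0]
    linarith
  have hc2 : c ≤ 1 + 4 * e := by
    rw [hc, div_le_iff₀ hμ0]
    nlinarith
  set U : ℕ → ℝ := fun r => ∑ n ∈ (Bx V).filter (fun n => n + r ∈ Bx V),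
    max 0 (μ * Real.log V / (2 * Real.pi) * (ord (n + r) - ord n) - x) with hU
  set L : ℕ → ℝ := fun r => ∑ n ∈ (Bx V).filter (fun n => n + r ∈ Bx V),
    max 0 (x - μ * Real.log V / (2 * Real.pi) * (ord (n + r) - ord n)) with hL
  have hL0 : ∀ r, 0 ≤ L r := fun r => Finset.sum_nonneg fun _ _ => le_max_left _ _
  have hU0 : ∀ r, 0 ≤ U r := fun r => Finset.sum_nonneg fun _ _ => le_max_left _ _
  have hcard0 : (0 : ℝ) ≤ (Bx V).card := Nat.cast_nonneg _
  -- one distance, upper part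
  have hup : ∀ r : ℕ, ∑ n ∈ Bx V, mc B x (sp n r) ≤ c * U r + 4 * e * x * (Bx V).card + r * B := by
    intro r
    rw [← Finset.sum_filter_add_sum_filter_not (Bx V) (fun n => n + r ∈ Bx V)]
    have h2 := exc (V := V) (r := r) (f := fun n => mc B x (sp n r)) (D := B)
      (fun n => mc_le _ _ _) hB
    have hmain : ∀ n ∈ (Bx V).filter (fun n => n + r ∈ Bx V), mc B x (sp n r) ≤
        c * max 0 (μ * Real.log V / (2 * Real.pi) * (ord (n + r) - ord n) - x) + 4 * e * x := by
      intro n hn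
      rw [Finset.mem_filter] at hn
      have h2 := (hV1 V c2 n r hn.1 hn.2).1
      set D : ℝ := μ * Real.log V / (2 * Real.pi) * (ord (n + r) - ord n) with hD
      have h3 : (1 + e) * (Real.log V / (2 * Real.pi) * (ord (n + r) - ord n)) = c * D := by
        rw [hc, hD]
        field_simp
      rw [h3] at h2
      refine (min_le_right _ _).trans ?_
      have hD0 : 0 ≤ max 0 (D - x) := le_max_left _ _
      have hD1 : D - x ≤ max 0 (D - x) := le_max_right _ _
      apply max_le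
      · positivity
      · have h4 : c * (D - x) ≤ c * max 0 (D - x) := mul_le_mul_of_nonneg_left hD1 (by linarith)
        have h5 : (c - 1) * x ≤ 4 * e * x := mul_le_mul_of_nonneg_right (by linarith) hx.le
        have h6 : c * (D - x) = c * D - c * x := by ring
        have h7 : (c - 1) * x = c * x - x := by ring
        linarith
    have hsum := Finset.sum_le_sum hmain
    rw [Finset.sum_add_distrib, Finset.sum_const, nsmul_eq_mul, ← Finset.mul_sum] at hsum
    have hcf : (((Bx V).filter (fun n => n + r ∈ Bx V)).card : ℝ) ≤ (Bx V).card := by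
      exact_mod_cast Finset.card_le_card (Finset.filter_subset _ _)
    have h3 : (((Bx V).filter (fun n => n + r ∈ Bx V)).card : ℝ) * (4 * e * x) ≤
        (Bx V).card * (4 * e * x) := mul_le_mul_of_nonneg_right hcf (by positivity)
    have h4 : ((Bx V).card : ℝ) * (4 * e * x) = 4 * e * x * (Bx V).card := by ring
    simp only [hU]
    linarith
  -- one distance, lower part
  have hlo : ∀ r : ℕ, ∑ n ∈ Bx V, lc x (sp n r) ≤ c * L r + r * x := by
    intro r
    rw [← Finset.sum_filter_add_sum_filter_not (Bx V) (fun n => n + r ∈ Bx V)]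
    have h2 := exc (V := V) (r := r) (f := fun n => lc x (sp n r)) (D := x)
      (fun n => lc_le _ _) hx.le
    have hmain : ∀ n ∈ (Bx V).filter (fun n => n + r ∈ Bx V), lc x (sp n r) ≤
        max 0 (x - μ * Real.log V / (2 * Real.pi) * (ord (n + r) - ord n)) := by
      intro n hn
      rw [Finset.mem_filter] at hn
      have h2 := (hV1 V c2 n r hn.1 hn.2).2
      have hn1 := (mem_Bx.1 hn.1).1
      have h3 : 0 ≤ ord (n + r) - ord n := sub_nonneg.2 (SG.ord_mono hn1 (by omega))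
      have h4 : μ * Real.log V / (2 * Real.pi) * (ord (n + r) - ord n) =
          μ * (Real.log V / (2 * Real.pi) * (ord (n + r) - ord n)) := by ring
      have h5 : 0 ≤ Real.log V / (2 * Real.pi) * (ord (n + r) - ord n) := by positivity
      have h6 : μ * (Real.log V / (2 * Real.pi) * (ord (n + r) - ord n)) ≤
          1 * (Real.log V / (2 * Real.pi) * (ord (n + r) - ord n)) :=
        mul_le_mul_of_nonneg_right hμ1.le h5
      refine (min_le_right _ _).trans ?_
      apply max_le_max le_rfl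
      rw [h4]
      linarith
    have hsum := Finset.sum_le_sum hmain
    have h3 : L r ≤ c * L r := by
      have := mul_le_mul_of_nonneg_right hc1 (hL0 r)
      linarith
    have h4 : ∑ n ∈ (Bx V).filter (fun n => n + r ∈ Bx V), lc x (sp n r) ≤ L r := hsum
    linarith
  -- the sum
  have hswap : ∑ n ∈ Bx V, FW P u v B x n = ∑ r ∈ Finset.Icc 1 P,
      (u r * ∑ n ∈ Bx V, mc B x (sp n r) + v r * ∑ n ∈ Bx V, lc x (sp n r)) := by
    unfold FW
    rw [Finset.sum_comm]
    apply Finset.sum_congr rfl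
    intro r _
    rw [Finset.sum_add_distrib, ← Finset.mul_sum, ← Finset.mul_sum]
  obtain ⟨W, hW⟩ : ∃ W, W = ∑ r ∈ Finset.Icc 1 P, (u r * U r + v r * L r) := ⟨_, rfl⟩
  have hs1 : ∑ r ∈ Finset.Icc 1 P,
      (u r * ∑ n ∈ Bx V, mc B x (sp n r) + v r * ∑ n ∈ Bx V, lc x (sp n r)) ≤
      c * W + Su * (4 * e * x * (Bx V).card) + E := by
    calc ∑ r ∈ Finset.Icc 1 P,
        (u r * ∑ n ∈ Bx V, mc B x (sp n r) + v r * ∑ n ∈ Bx V, lc x (sp n r)) ≤
        ∑ r ∈ Finset.Icc 1 P, (c * (u r * U r + v r * L r) + u r * (4 * e * x * (Bx V).card) +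
          (u r * (r * B) + v r * (r * x))) := by
          apply Finset.sum_le_sum
          intro r _
          have h2 := mul_le_mul_of_nonneg_left (hup r) (hu r)
          have h3 := mul_le_mul_of_nonneg_left (hlo r) (hv r)
          have h4 : u r * (c * U r + 4 * e * x * (Bx V).card + r * B) +
            v r * (c * L r + r * x) = c * (u r * U r + v r * L r) +
            u r * (4 * e * x * (Bx V).card) + (u r * (r * B) + v r * (r * x)) := by ring
          linarith
      _ = _ := by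
        rw [Finset.sum_add_distrib, Finset.sum_add_distrib, ← Finset.mul_sum, ← Finset.sum_mul, hW]
  rw [hswap]
  have hW0 : 0 ≤ W := by
    rw [hW]
    exact Finset.sum_nonneg fun r _ =>
      add_nonneg (mul_nonneg (hu r) (hU0 r)) (mul_nonneg (hv r) (hL0 r))
  have h5 : W ≤ (A + e) * X := by
    rw [hW]
    exact b1
  have h8 : c * W ≤ (A + e * (4 * |A| + 3)) * X := by
    have h9 : 0 ≤ (A + e) * X := hW0.trans h5
    calc c * W ≤ c * ((A + e) * X) := mul_le_mul_of_nonneg_left h5 (by linarith)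
      _ ≤ (1 + 4 * e) * ((A + e) * X) := mul_le_mul_of_nonneg_right hc2 h9
      _ = (A + e * (4 * A + 1 + 4 * e)) * X := by ring
      _ ≤ _ := by
        apply mul_le_mul_of_nonneg_right _ (by linarith)
        have i1 := le_abs_self A
        have i2 : e * (4 * A + 1 + 4 * e) ≤ e * (4 * |A| + 3) :=
          mul_le_mul_of_nonneg_left (by linarith) he0.le
        linarith
  have h11 : Su * (4 * e * x * (Bx V).card) ≤ e * (8 * Su * x) * X := by
    calc Su * (4 * e * x * (Bx V).card) = (4 * Su * e * x) * (Bx V).card := by ring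
      _ ≤ (4 * Su * e * x) * (2 * X) := by
          apply mul_le_mul_of_nonneg_left _ (by positivity)
          refine b2.trans ?_
          exact mul_le_mul_of_nonneg_right (by linarith) (by linarith)
      _ = _ := by ring
  have h12 : e * M * X ≤ ε * X := mul_le_mul_of_nonneg_right heM (by linarith)
  have h13 : e * M * X = e * (4 * |A| + 3) * X + e * (8 * Su * x) * X + 5 * (e * X) := by
    rw [hM]; ring
  have h14 : 0 ≤ e * X := mul_nonneg he0.le (by linarith)
  have h15 : (A + e * (4 * |A| + 3)) * X = A * X + e * (4 * |A| + 3) * X := by ring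
  have h16 : (A + ε) * X = A * X + ε * X := by ring
  rw [h16]
  linarith

end Pool.Agent.H707.NB
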