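import Pool.Agent.H707.NB.Win
import Pool.Agent.H707.SM.Fin

/-! The sums over a block. -/

open Filter Topology Set MeasureTheory

namespace Pool.Agent.H707.NB

open SG (ord NZ)
open Pool.Agent.TH873.EW (ct mom XV)
open Pool.Agent.Y747 (Bx mem_Bx)
open Pool.Agent.H707.SM (Bx_eq XV_large pair_le fin_arith)

/-- the sums over the sums of consecutive gaps of a block -/
theorem block (hRH : RiemannHypothesis) {g : ℝ → ℝ} (hg : ContDiff ℝ 1 g) (h1 : g 1 = 0) {x : ℝ}
    (hx : 0 < x) (hmaj : ∀ u, max 0 (x - |u|) ≤ ct g u) (q R : ℕ) {ε : ℝ} (hε : 0 < ε) :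
    ∃ μ : ℝ, 1 - ε ≤ μ ∧ μ < 1 ∧ 0 < μ ∧ ∃ V0 : ℝ, 10 ≤ V0 ∧ ∀ V : ℝ, V0 ≤ V →
      2 * ∑ r ∈ Finset.Icc 1 q, ∑ n ∈ (Bx V).filter (fun n => n + r ∈ Bx V),
        max 0 (μ * Real.log V / (2 * Real.pi) * (ord (n + r) - ord n) - x) +
      2 * ∑ r ∈ Finset.Icc (q + 1) (q + R), ∑ n ∈ (Bx V).filter (fun n => n + r ∈ Bx V),
        max 0 (x - μ * Real.log V / (2 * Real.pi) * (ord (n + r) - ord n)) ≤
      (mom g - (2 * q + 1) * x + q * (q + 1) + ε) * XV V ∧ ((Bx V).card : ℝ) ≤ (1 + ε) * XV V := by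
  classical
  set I : ℝ := ∫ t in (0 : ℝ)..1, t * g t with hI
  have hmomI : mom g = g 0 + 2 * I := rfl
  have hq0 : (0 : ℝ) ≤ q := Nat.cast_nonneg q
  set B : ℝ := |mom g| + 4 + (2 * q + 1) * x + q * (q + 1) with hB
  have hB4 : 4 ≤ B := by
    have := abs_nonneg (mom g)
    have : 0 ≤ (2 * (q : ℝ) + 1) * x := by positivity
    have : 0 ≤ (q : ℝ) * (q + 1) := by positivity
    linarith
  set e : ℝ := min (1 / 2) (ε / B) with he
  have he0 : 0 < e := lt_min (by norm_num) (by positivity)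
  have he1 : e ≤ 1 / 2 := min_le_left _ _
  have heB : e * B ≤ ε := by
    have : e ≤ ε / B := min_le_right _ _
    rwa [le_div_iff₀ (by linarith)] at this
  have heε : e ≤ ε := by
    have : e * 1 ≤ e * B := mul_le_mul_of_nonneg_left (by linarith) he0.le
    linarith
  -- choice of `μ`
  have hc : ContinuousAt (fun μ : ℝ => g 0 / μ + 2 * μ * I) 1 := by
    have : ContinuousAt (fun μ : ℝ => g 0 / μ) 1 :=
      continuousAt_const.div continuousAt_id one_ne_zero
    exact this.add (by fun_prop)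
  have hev : ∀ᶠ μ in 𝓝[<] (1 : ℝ), g 0 / μ + 2 * μ * I < mom g + e := by
    apply nhdsWithin_le_nhds
    apply hc.eventually_lt continuousAt_const
    simp only [div_one, mul_one]
    linarith
  have hev2 : ∀ᶠ μ in 𝓝[<] (1 : ℝ), max (1 / 2) (1 - ε) < μ := by
    apply nhdsWithin_le_nhds
    apply lt_mem_nhds
    exact max_lt (by norm_num) (by linarith)
  have hlt : ∀ᶠ s in 𝓝[<] (1 : ℝ), s < 1 := self_mem_nhdsWithin
  obtain ⟨μ, ⟨hμ1, hμ2⟩, hμ3⟩ := ((hev.and hev2).and hlt).exists
  have hμh : 1 / 2 < μ := (le_max_left _ _).trans_lt hμ2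
  have hμpos : 0 < μ := by linarith
  have hμε : 1 - ε ≤ μ := ((le_max_right _ _).trans_lt hμ2).le
  refine ⟨μ, hμε, hμ3, hμpos, ?_⟩
  have hpi := Real.pi_gt_three
  obtain ⟨V1, hV1, hp⟩ := Pool.Agent.Y747.blk_pair hRH hg h1 hμpos hμ3 he0
  obtain ⟨V2, hV2⟩ := XV_large (max 1 (x / e))
  have hlim : Tendsto (fun V : ℝ => μ * Real.log V / (2 * Real.pi)) atTop atTop :=
    (Real.tendsto_log_atTop.const_mul_atTop hμpos).atTop_div_const (by positivity)
  obtain ⟨V3, hV3⟩ := (hlim.eventually_ge_atTop (max 1 (x / e))).exists_forall_of_atTop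
  refine ⟨max V1 (max V2 V3), hV1.trans (le_max_left _ _), fun V hV => ?_⟩
  have c1 : V1 ≤ V := (le_max_left _ _).trans hV
  have c2 : V2 ≤ V := ((le_max_left _ _).trans (le_max_right _ _)).trans hV
  have c3 : V3 ≤ V := ((le_max_right _ _).trans (le_max_right _ _)).trans hV
  have hV10 : 10 ≤ V := hV1.trans c1
  obtain ⟨p1, p2⟩ := hp V c1
  have d2 := hV2 V c2
  have d3 := hV3 V c3
  set X := XV V with hX
  set κ : ℝ := μ * Real.log V / (2 * Real.pi) with hκ
  have hX1 : 1 ≤ X := (le_max_left _ _).trans d2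
  have hXe : x ≤ e * X := by
    have := (le_max_right _ _).trans d2
    rw [div_le_iff₀ he0] at this
    linarith
  have hκ1 : 1 ≤ κ := (le_max_left _ _).trans d3
  have hκe : x ≤ e * κ := by
    have := (le_max_right _ _).trans d3
    rw [div_le_iff₀ he0] at this
    linarith
  have hlogV : 0 < Real.log V := Real.log_pos (by linarith)
  have q1 := (abs_le.1 p1).1
  have q2 := (abs_le.1 p1).2
  refine ⟨?_, by
    have : e * X ≤ ε * X := mul_le_mul_of_nonneg_right heε (by linarith)
    linarith⟩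
  -- the block is an interval
  set a := NZ (V + 1) + 1 with ha
  set b := NZ (2 * V - 1) with hb
  have hBx : Bx V = Finset.Icc a b := Bx_eq V
  have hab : a ≤ b := by
    by_contra h
    have h0 : Bx V = ∅ := by
      rw [hBx, Finset.Icc_eq_empty]
      exact h
    rw [h0, Finset.card_empty, Nat.cast_zero] at q1
    have : e * X ≤ 1 / 2 * X := mul_le_mul_of_nonneg_right he1 (by linarith)
    linarith
  have haB : a ∈ Bx V := by rw [hBx]; exact Finset.mem_Icc.2 ⟨le_rfl, hab⟩
  have hbB : b ∈ Bx V := by rw [hBx]; exact Finset.mem_Icc.2 ⟨hab, le_rfl⟩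
  set y : ℕ → ℝ := fun n => κ * ord n with hy
  have hymono : ∀ n k : ℕ, a ≤ n → n ≤ k → k ≤ b → y n ≤ y k := by
    intro n k h2 h3 _
    simp only [hy]
    apply mul_le_mul_of_nonneg_left _ (by linarith)
    exact SG.ord_mono (by omega) h3
  have hw := window_all hab hymono hx q R
  have hfil : ∀ r : ℕ, (Bx V).filter (fun n => n + r ∈ Bx V) =
      (Finset.Icc a b).filter (fun n => n + r ≤ b) := by
    intro r
    ext n
    rw [Finset.mem_filter, Finset.mem_filter, hBx, Finset.mem_Icc, Finset.mem_Icc]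
    omega
  have e1 : 2 * ∑ r ∈ Finset.Icc 1 q, ∑ n ∈ (Bx V).filter (fun n => n + r ∈ Bx V),
        max 0 (κ * (ord (n + r) - ord n) - x) +
      2 * ∑ r ∈ Finset.Icc (q + 1) (q + R), ∑ n ∈ (Bx V).filter (fun n => n + r ∈ Bx V),
        max 0 (x - κ * (ord (n + r) - ord n)) =
      2 * ∑ r ∈ Finset.Icc 1 q, ∑ n ∈ (Finset.Icc a b).filter (fun n => n + r ≤ b),
        max 0 (y (n + r) - y n - x) +
      2 * ∑ r ∈ Finset.Icc (q + 1) (q + R), ∑ n ∈ (Finset.Icc a b).filter (fun n => n + r ≤ b),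
        max 0 (x - (y (n + r) - y n)) := by
    congr 2
    · apply Finset.sum_congr rfl
      intro r _
      rw [hfil]
      apply Finset.sum_congr rfl
      intro n _
      simp only [hy]
      congr 2
      ring
    · apply Finset.sum_congr rfl
      intro r _
      rw [hfil]
      apply Finset.sum_congr rfl
      intro n _
      simp only [hy]
      congr 2
      ring
  rw [e1]
  refine hw.trans ?_
  -- the pairs
  have hpair : ∑ n ∈ Finset.Icc a b, ∑ k ∈ Finset.Icc a b, max 0 (x - |y n - y k|) ≤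
      (1 + e) * ∑ n ∈ Bx V, ∑ m ∈ Bx V, Real.exp (-(ord n - ord m) ^ 2 / 4) *
        ct g (κ * (ord n - ord m)) := by
    rw [hBx, Finset.mul_sum]
    apply Finset.sum_le_sum
    intro n _
    rw [Finset.mul_sum]
    apply Finset.sum_le_sum
    intro k _
    have hyy : y n - y k = κ * (ord n - ord k) := by simp only [hy]; ring
    rw [hyy]
    exact pair_le (by linarith) hκe he0 he1 hmaj _
  have q3 := (abs_le.1 p2).2
  set P := ∑ n ∈ Bx V, ∑ m ∈ Bx V, Real.exp (-(ord n - ord m) ^ 2 / 4) *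
        ct g (κ * (ord n - ord m)) with hP
  have hPle : P ≤ (mom g + 2 * e) * X := by
    have h6 : X * (g 0 / μ + 2 * μ * I) ≤ X * (mom g + e) :=
      mul_le_mul_of_nonneg_left hμ1.le (by linarith)
    have h7 : (mom g + 2 * e) * X = X * (mom g + e) + e * X := by ring
    rw [h7]
    linarith
  -- the length
  have hlen : y b - y a ≤ X := by
    have h6 : ord b ≤ 2 * V - 1 := (mem_Bx.1 hbB).2.2
    have h7 : V + 1 < ord a := (mem_Bx.1 haB).2.1
    have h8 : y b - y a ≤ κ * (V - 2) := by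
      simp only [hy]
      have : κ * (ord b - ord a) ≤ κ * (V - 2) :=
        mul_le_mul_of_nonneg_left (by linarith) (by linarith)
      linarith
    have h9 : κ * (V - 2) = μ * X := by
      rw [hκ, hX]
      unfold Pool.Agent.TH873.EW.XV
      ring
    rw [h9] at h8
    have h10 : μ * X ≤ 1 * X := mul_le_mul_of_nonneg_right hμ3.le (by linarith)
    linarith
  have hcard : (1 - e) * X ≤ ((Finset.Icc a b).card : ℝ) := by
    rw [← hBx]
    linarith
  exact fin_arith he0 he1 hx hq0 (by linarith) hB heB hpair hPle hcard (by linarith)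

/-- the sum of `r` consecutive normalised gaps -/
noncomputable def sp (n r : ℕ) : ℝ :=
  (ord (n + r) * Real.log (ord (n + r)) - ord n * Real.log (ord n)) / (2 * Real.pi)

lemma sp_sum (n r : ℕ) : ∑ j ∈ Finset.range r, LG.dlt (n + j) = sp n r := by
  unfold sp
  induction r with
  | zero => simp
  | succ r ih =>
    rw [Finset.sum_range_succ, ih]
    unfold LG.dlt
    rw [show n + (r + 1) = n + r + 1 by omega]
    ring

/-- upper bound for the sums of gaps in a block -/
lemma sp_le (η : ℝ) (hη : 0 < η) : ∃ V1 : ℝ, ∀ V : ℝ, V1 ≤ V → ∀ n r : ℕ, n ∈ Bx V →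
    n + r ∈ Bx V →
      sp n r ≤ (1 + η) * (Real.log V / (2 * Real.pi) * (ord (n + r) - ord n)) ∧
      Real.log V / (2 * Real.pi) * (ord (n + r) - ord n) ≤ sp n r := by
  obtain ⟨V1, hV1⟩ := (Real.tendsto_log_atTop.eventually_ge_atTop (2 / η)).exists_forall_of_atTop
  refine ⟨max 10 V1, fun V hV n r hn hn' => ?_⟩
  have hV10 : 10 ≤ V := (le_max_left _ _).trans hV
  have hL := hV1 V ((le_max_right _ _).trans hV)
  rw [div_le_iff₀ hη] at hL
  rw [mem_Bx] at hn hn'
  have hpi := Real.pi_pos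
  obtain ⟨a, ha⟩ : ∃ a, a = ord n := ⟨_, rfl⟩
  obtain ⟨b, hb⟩ : ∃ b, b = ord (n + r) := ⟨_, rfl⟩
  have hab : a ≤ b := by rw [ha, hb]; exact SG.ord_mono hn.1 (by omega)
  have haV : V ≤ a := by rw [ha]; linarith [hn.2.1]
  have ha0 : 0 < a := by linarith
  have hb0 : 0 < b := lt_of_lt_of_le ha0 hab
  have hbV : b ≤ 2 * V := by rw [hb]; linarith [hn'.2.2]
  unfold sp
  rw [← ha, ← hb]
  have h1 : a * (Real.log b - Real.log a) ≤ b - a := by
    have h2 := Real.log_le_sub_one_of_pos (div_pos hb0 ha0)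
    rw [Real.log_div hb0.ne' ha0.ne'] at h2
    have h3 : a * (Real.log b - Real.log a) ≤ a * (b / a - 1) := mul_le_mul_of_nonneg_left h2 ha0.le
    have h4 : a * (b / a - 1) = b - a := by field_simp
    linarith
  have h8 : b * Real.log b - a * Real.log a = (b - a) * Real.log b + a * (Real.log b - Real.log a) := by
    ring
  constructor
  · have h5 : Real.log b ≤ Real.log 2 + Real.log V := by
      rw [← Real.log_mul (by norm_num) (by linarith)]
      exact Real.log_le_log hb0 hbV
    have h6 : Real.log 2 ≤ 1 := by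
      have := Real.log_two_lt_d9
      linarith
    have h7 : b * Real.log b - a * Real.log a ≤ (b - a) * ((1 + η) * Real.log V) := by
      have h9 : (b - a) * Real.log b ≤ (b - a) * ((1 + η) * Real.log V - 1) := by
        apply mul_le_mul_of_nonneg_left _ (by linarith)
        have : (1 + η) * Real.log V = Real.log V + Real.log V * η := by ring
        linarith
      have h10 : (b - a) * ((1 + η) * Real.log V - 1) =
          (b - a) * ((1 + η) * Real.log V) - (b - a) := by ring
      linarith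
    rw [div_le_iff₀ (by positivity)]
    refine h7.trans (le_of_eq ?_)
    field_simp
  · have h5 : Real.log V ≤ Real.log b := Real.log_le_log (by linarith) (haV.trans hab)
    have h6 : (b - a) * Real.log V ≤ (b - a) * Real.log b :=
      mul_le_mul_of_nonneg_left h5 (by linarith)
    have h7 : 0 ≤ a * (Real.log b - Real.log a) :=
      mul_nonneg ha0.le (sub_nonneg.2 (Real.log_le_log ha0 hab))
    rw [le_div_iff₀ (by positivity)]
    have h9 : Real.log V / (2 * Real.pi) * (b - a) * (2 * Real.pi) = (b - a) * Real.log V := by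
      field_simp
    linarith

end Pool.Agent.H707.NB
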