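import Pool.Agent.H707.NB.AvgQ
import Pool.Agent.H707.NB.FinW

/-! The mean absolute deviation. -/

open Filter Topology Set MeasureTheory

namespace Pool.Agent.H707.NB

open SG (ord NZ)
open Pool.Agent.TH873.EW (mom)
open Pool.Agent.H707.SM (mc mc_nonneg mc_le tl tl_nonneg Jm mom_val hk cd_hk hk_one tent_le
  const_small dlt_nonneg tail_dlt)
open LG (dlt)

/-- **the weighted sum over all neighbours** -/
theorem mainQ (hRH : RiemannHypothesis) (m P : ℕ) {β γ : ℝ} (hβ : 0 ≤ β) (hγ : 0 ≤ γ)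
    {u v : ℕ → ℝ}
    (hu : ∀ r, 0 ≤ u r) (hv : ∀ r, 0 ≤ v r)
    (hw : ∀ M : ℕ, ∑ r ∈ Finset.Icc 1 P, (u r * ((r - M : ℕ) : ℝ) + v r * ((M - r : ℕ) : ℝ)) ≤
      (M : ℝ) ^ 2 - β * M + γ) {ε : ℝ} (hε : 0 < ε) :
    ∀ᶠ N : ℕ in atTop, ∑ n ∈ Finset.Icc 1 N, ∑ r ∈ Finset.Icc 1 P,
      (u r * max 0 (sp n r - ((m : ℝ) + 1 / 2)) + v r * max 0 ((m : ℝ) + 1 / 2 - sp n r)) ≤
      (Jm m + (((m : ℝ) + 1 / 2) ^ 2 + 1 / 4 - β * ((m : ℝ) + 1 / 2) + γ) + ε) * N := by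
  classical
  have hm0 : (0 : ℝ) ≤ m := Nat.cast_nonneg m
  obtain ⟨x, hx⟩ : ∃ x : ℝ, x = (m : ℝ) + 1 / 2 := ⟨_, rfl⟩
  have hx0 : 0 < x := by rw [hx]; positivity
  set Su : ℝ := ∑ r ∈ Finset.Icc 1 P, u r with hSu
  have hSu0 : 0 ≤ Su := Finset.sum_nonneg fun r _ => hu r
  have hE0 : 0 < ε / (4 * (Su + 1)) := by positivity
  obtain ⟨K0, hK0⟩ := tail_shift hRH P hE0
  set K := max K0 1 with hK
  have hK1 : 1 ≤ K := le_max_right _ _
  set B : ℝ := P * K with hB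
  have hB0 : 0 ≤ B := by positivity
  obtain ⟨n0, hn0⟩ := dlt_nonneg
  set D : ℝ := ∑ n ∈ Finset.range n0, ∑ r ∈ Finset.Icc 1 P, v r * |sp n r| with hD
  have hav := meanQ hRH (cd_hk ((m : ℝ) + 1 / 2) m) (hk_one _ _) (x := (m : ℝ) + 1 / 2)
    (by positivity) (tent_le m) P hβ hγ hu hv hw hB0 (ε := ε / 2) (by positivity)
  have hmv : mom (hk ((m : ℝ) + 1 / 2) m) - β * ((m : ℝ) + 1 / 2) + γ =
      Jm m + (((m : ℝ) + 1 / 2) ^ 2 + 1 / 4 - β * ((m : ℝ) + 1 / 2) + γ) := by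
    rw [← mom_val]
    ring
  rw [hmv, ← hx] at hav
  filter_upwards [hav, const_small D (ε / 4) (by positivity), eventually_ge_atTop (max P 1)]
    with N h1 h2 hN
  have hN0 : (0 : ℝ) ≤ N := Nat.cast_nonneg N
  rw [← hx]
  have ht := hK0 K (le_max_left _ _) N hN
  have ht2 : Su * ∑ n ∈ Finset.Icc 1 N, ∑ j ∈ Finset.range P, tl K (dlt (n + j)) ≤ ε / 4 * N := by
    obtain ⟨T, hT⟩ : ∃ T, T = ∑ n ∈ Finset.Icc 1 N, ∑ j ∈ Finset.range P, tl K (dlt (n + j)) :=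
      ⟨_, rfl⟩
    have hT0 : 0 ≤ T := by
      rw [hT]
      exact Finset.sum_nonneg fun n _ => Finset.sum_nonneg fun j _ => tl_nonneg K _
    rw [← hT] at ht ⊢
    have a2 : Su * T ≤ (Su + 1) * T := mul_le_mul_of_nonneg_right (by linarith) hT0
    have a3 : (Su + 1) * T ≤ (Su + 1) * (ε / (4 * (Su + 1)) * N) :=
      mul_le_mul_of_nonneg_left ht (by positivity)
    have a4 : (Su + 1) * (ε / (4 * (Su + 1)) * N) = ε / 4 * N := by
      have : Su + 1 ≠ 0 := by positivity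
      field_simp
    linarith
  have hpt : ∀ n ∈ Finset.Icc 1 N, ∑ r ∈ Finset.Icc 1 P,
      (u r * max 0 (sp n r - x) + v r * max 0 (x - sp n r)) ≤ FW P u v B x n +
      Su * ∑ j ∈ Finset.range P, tl K (dlt (n + j)) +
      (if n ∈ Finset.range n0 then ∑ r ∈ Finset.Icc 1 P, v r * |sp n r| else 0) := by
    intro n _
    have hT0 : 0 ≤ ∑ j ∈ Finset.range P, tl K (dlt (n + j)) :=
      Finset.sum_nonneg fun j _ => tl_nonneg K _
    have hup : ∀ r ∈ Finset.Icc 1 P, u r * max 0 (sp n r - x) ≤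
        u r * mc B x (sp n r) + u r * ∑ j ∈ Finset.range P, tl K (dlt (n + j)) := by
      intro r hr
      rw [Finset.mem_Icc] at hr
      rw [← mul_add]
      exact mul_le_mul_of_nonneg_left (up_pt hx0.le hB0 hT0 (sp_le_tl hK1 hr.2 n)) (hu r)
    have hup' := Finset.sum_le_sum hup
    rw [Finset.sum_add_distrib, ← Finset.sum_mul] at hup'
    rw [Finset.sum_add_distrib]
    unfold FW
    rw [Finset.sum_add_distrib]
    split_ifs with h
    · have hlo : ∀ r ∈ Finset.Icc 1 P, v r * max 0 (x - sp n r) ≤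
          v r * lc x (sp n r) + v r * |sp n r| := by
        intro r _
        rw [← mul_add]
        exact mul_le_mul_of_nonneg_left (lo_pt hx0.le) (hv r)
      have hlo' := Finset.sum_le_sum hlo
      rw [Finset.sum_add_distrib] at hlo'
      linarith
    · rw [Finset.mem_range, not_lt] at h
      have hlo : ∀ r ∈ Finset.Icc 1 P, v r * max 0 (x - sp n r) ≤ v r * lc x (sp n r) := by
        intro r _
        have hs : 0 ≤ sp n r := by
          rw [← sp_sum]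
          exact Finset.sum_nonneg fun j _ => hn0 _ (by omega)
        exact mul_le_mul_of_nonneg_left (lo_pt' hx0.le hs).le (hv r)
      have hlo' := Finset.sum_le_sum hlo
      linarith
  have hsum := Finset.sum_le_sum hpt
  rw [Finset.sum_add_distrib, Finset.sum_add_distrib, ← Finset.mul_sum] at hsum
  have b3 : ∑ n ∈ Finset.Icc 1 N,
      (if n ∈ Finset.range n0 then ∑ r ∈ Finset.Icc 1 P, v r * |sp n r| else 0) ≤ D := by
    rw [← Finset.sum_filter]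
    apply Finset.sum_le_sum_of_subset_of_nonneg
    · intro n hn
      exact (Finset.mem_filter.1 hn).2
    · intro n _ _
      exact Finset.sum_nonneg fun r _ => mul_nonneg (hv r) (abs_nonneg _)
  have e2 : (Jm m + (x ^ 2 + 1 / 4 - β * x + γ) + ε) * (N : ℝ) =
      (Jm m + (x ^ 2 + 1 / 4 - β * x + γ) + ε / 2) * N + ε / 4 * N + ε / 4 * N := by ring
  rw [e2]
  linarith

lemma Jm_nonneg (hRH : RiemannHypothesis) (m : ℕ) : 0 ≤ Jm m := by
  by_contra h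
  rw [not_le] at h
  have h1 := mainW hRH m 0 (u := fun _ => 0) (v := fun _ => 0) (fun _ => le_rfl) (fun _ => le_rfl)
    (by
      intro M
      have := consec ((M : ℤ) - m)
      push_cast at this
      simp only [Finset.Icc_eq_empty (show ¬ (1 ≤ 0) by omega), Finset.sum_empty]
      nlinarith) (ε := -Jm m / 2) (by linarith)
  obtain ⟨N, h2, h3⟩ := (h1.and (eventually_gt_atTop 0)).exists
  have hN : (0 : ℝ) < N := by exact_mod_cast h3
  simp only [Finset.Icc_eq_empty (show ¬ (1 ≤ 0) by omega), Finset.sum_empty,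
    Finset.sum_const_zero] at h2
  nlinarith

/-- **the mean of `|S - x|`** -/
theorem absdev (hRH : RiemannHypothesis) (m : ℕ) {r : ℕ} (hr : 1 ≤ r) {ε : ℝ} (hε : 0 < ε) :
    ∀ᶠ N : ℕ in atTop, ∑ n ∈ Finset.Icc 1 N, |sp n r - ((m : ℝ) + 1 / 2)| ≤
      (Real.sqrt (Jm m + 1 / 4 + ((m : ℝ) + 1 / 2 - r) ^ 2) + ε) * N := by
  classical
  have hJ := Jm_nonneg hRH m
  obtain ⟨a, ha⟩ : ∃ a, a = Real.sqrt (Jm m + 1 / 4 + ((m : ℝ) + 1 / 2 - r) ^ 2) := ⟨_, rfl⟩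
  have hpos : 0 < Jm m + 1 / 4 + ((m : ℝ) + 1 / 2 - r) ^ 2 := by positivity
  have ha0 : 0 < a := by rw [ha]; exact Real.sqrt_pos.2 hpos
  have ha2 : a ^ 2 = Jm m + 1 / 4 + ((m : ℝ) + 1 / 2 - r) ^ 2 := by
    rw [ha]
    exact Real.sq_sqrt hpos.le
  have h1 := mainQ hRH m r (β := 2 * r) (γ := (r : ℝ) ^ 2 + a ^ 2) (by positivity) (by positivity)
    (u := fun s => if s = r then 2 * a else 0) (v := fun s => if s = r then 2 * a else 0)
    (fun s => by split_ifs <;> linarith) (fun s => by split_ifs <;> linarith) (by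
      intro M
      simp only [ite_mul, zero_mul]
      rw [Finset.sum_add_distrib, Finset.sum_ite_eq' (Finset.Icc 1 r) r,
        if_pos (Finset.mem_Icc.2 ⟨hr, le_rfl⟩), Finset.sum_ite_eq' (Finset.Icc 1 r) r,
        if_pos (Finset.mem_Icc.2 ⟨hr, le_rfl⟩)]
      rcases le_total M r with h2 | h2
      · rw [Nat.cast_sub h2, Nat.sub_eq_zero_of_le h2, Nat.cast_zero]
        nlinarith [sq_nonneg ((r : ℝ) - M - a)]
      · rw [Nat.cast_sub h2, Nat.sub_eq_zero_of_le h2, Nat.cast_zero]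
        nlinarith [sq_nonneg ((M : ℝ) - r - a)]) (ε := 2 * a * ε) (by positivity)
  filter_upwards [h1] with N hN
  have e3 : ∀ n : ℕ, ∑ s ∈ Finset.Icc 1 r,
      ((if s = r then 2 * a else 0) * max 0 (sp n s - ((m : ℝ) + 1 / 2)) +
      (if s = r then 2 * a else 0) * max 0 ((m : ℝ) + 1 / 2 - sp n s)) =
      2 * a * |sp n r - ((m : ℝ) + 1 / 2)| := by
    intro n
    simp only [ite_mul, zero_mul]
    rw [Finset.sum_add_distrib, Finset.sum_ite_eq' (Finset.Icc 1 r) r,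
      if_pos (Finset.mem_Icc.2 ⟨hr, le_rfl⟩), Finset.sum_ite_eq' (Finset.Icc 1 r) r,
      if_pos (Finset.mem_Icc.2 ⟨hr, le_rfl⟩), ← mul_add]
    congr 1
    rcases le_total 0 (sp n r - ((m : ℝ) + 1 / 2)) with h | h
    · rw [max_eq_right h, max_eq_left (by linarith), abs_of_nonneg h, add_zero]
    · rw [max_eq_left h, max_eq_right (by linarith), abs_of_nonpos h, zero_add]
      ring
  simp only [e3] at hN
  rw [← Finset.mul_sum] at hN
  have e4 : (Jm m + (((m : ℝ) + 1 / 2) ^ 2 + 1 / 4 - 2 * r * ((m : ℝ) + 1 / 2) +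
      ((r : ℝ) ^ 2 + a ^ 2)) + 2 * a * ε) * (N : ℝ) = 2 * a * ((a + ε) * N) := by
    have e5 : Jm m + (((m : ℝ) + 1 / 2) ^ 2 + 1 / 4 - 2 * r * ((m : ℝ) + 1 / 2) +
      ((r : ℝ) ^ 2 + a ^ 2)) = 2 * a ^ 2 := by
      have e6 : Jm m + (((m : ℝ) + 1 / 2) ^ 2 + 1 / 4 - 2 * r * ((m : ℝ) + 1 / 2) +
        ((r : ℝ) ^ 2 + a ^ 2)) = (Jm m + 1 / 4 + ((m : ℝ) + 1 / 2 - r) ^ 2) + a ^ 2 := by ring
      rw [e6, ← ha2]
      ring
    rw [e5]
    ring
  rw [e4] at hN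
  rw [← ha]
  exact le_of_mul_le_mul_left hN (by positivity)

/-- **the mean of `|S - r|`** -/
theorem absdev_r (hRH : RiemannHypothesis) (r : ℕ) {ε : ℝ} (hε : 0 < ε) :
    ∀ᶠ N : ℕ in atTop, ∑ n ∈ Finset.Icc 1 N, |sp n (r + 1) - ((r : ℝ) + 1)| ≤
      ((Real.sqrt (Jm r + 1 / 2) + Real.sqrt (Jm (r + 1) + 1 / 2)) / 2 + ε) * N := by
  filter_upwards [absdev hRH r (r := r + 1) (by omega) hε,
    absdev hRH (r + 1) (r := r + 1) (by omega) hε] with N h1 h2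
  have e1 : Jm r + 1 / 4 + ((r : ℝ) + 1 / 2 - ((r + 1 : ℕ) : ℝ)) ^ 2 = Jm r + 1 / 2 := by
    push_cast
    ring
  have e2 : Jm (r + 1) + 1 / 4 + (((r + 1 : ℕ) : ℝ) + 1 / 2 - ((r + 1 : ℕ) : ℝ)) ^ 2 =
      Jm (r + 1) + 1 / 2 := by ring
  rw [e1] at h1
  rw [e2] at h2
  have hpt : ∀ n ∈ Finset.Icc 1 N, |sp n (r + 1) - ((r : ℝ) + 1)| ≤
      1 / 2 * |sp n (r + 1) - ((r : ℝ) + 1 / 2)| +
      1 / 2 * |sp n (r + 1) - (((r + 1 : ℕ) : ℝ) + 1 / 2)| := by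
    intro n _
    push_cast
    have a1 := le_abs_self (sp n (r + 1) - ((r : ℝ) + 1 / 2))
    have a2 := neg_abs_le (sp n (r + 1) - ((r : ℝ) + 1 / 2))
    have a3 := le_abs_self (sp n (r + 1) - ((r : ℝ) + 1 + 1 / 2))
    have a4 := neg_abs_le (sp n (r + 1) - ((r : ℝ) + 1 + 1 / 2))
    rw [abs_le]
    constructor <;> linarith
  have hsum := Finset.sum_le_sum hpt
  rw [Finset.sum_add_distrib, ← Finset.mul_sum, ← Finset.mul_sum] at hsum
  have e3 : ((Real.sqrt (Jm r + 1 / 2) + Real.sqrt (Jm (r + 1) + 1 / 2)) / 2 + ε) * (N : ℝ) =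
      1 / 2 * ((Real.sqrt (Jm r + 1 / 2) + ε) * N) +
      1 / 2 * ((Real.sqrt (Jm (r + 1) + 1 / 2) + ε) * N) := by ring
  rw [e3]
  linarith

end Pool.Agent.H707.NB
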