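import Pool.Agent.H707.NB.FinW

/-! The variance of the sums of consecutive gaps. -/

open Filter Topology Set MeasureTheory

namespace Pool.Agent.H707.NB

open SG (ord NZ)
open Pool.Agent.H707.SM (mc mc_nonneg mc_le tl tl_nonneg Jm Jm_le H1 H1_succ const_small dlt_nonneg
  step_up)
open LG (dlt)

/-- `∑_{i < r} 1 / (2 i + 1)` -/
noncomputable def Od (r : ℕ) : ℝ := ∑ i ∈ Finset.range r, 1 / (2 * (i : ℝ) + 1)

lemma sum_half (k : ℕ) : ∑ m ∈ Finset.range k, ((m : ℝ) + 1 / 2) = (k : ℝ) ^ 2 / 2 := by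
  induction k with
  | zero => simp
  | succ k ih =>
    rw [Finset.sum_range_succ, ih]
    push_cast
    ring

lemma sum_half_Ico {a b : ℕ} (h : a ≤ b) :
    ∑ m ∈ Finset.Ico a b, ((m : ℝ) + 1 / 2) = ((b : ℝ) ^ 2 - (a : ℝ) ^ 2) / 2 := by
  rw [Finset.sum_Ico_eq_sub _ h, sum_half, sum_half]
  ring

/-- the trapezoidal rule -/
lemma nodes {s : ℝ} {r K : ℕ} (h0 : 0 ≤ s) (h1 : s ≤ K) :
    (s - r) ^ 2 ≤ 1 / 4 + 2 * ∑ m ∈ Finset.Ico r K, max 0 (s - ((m : ℝ) + 1 / 2)) +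
      2 * ∑ m ∈ Finset.range r, max 0 ((m : ℝ) + 1 / 2 - s) := by
  obtain ⟨k, hk⟩ : ∃ k : ℕ, k = ⌊s + 1 / 2⌋₊ := ⟨_, rfl⟩
  have k1 : (k : ℝ) ≤ s + 1 / 2 := by rw [hk]; exact Nat.floor_le (by linarith)
  have k2 : s + 1 / 2 < k + 1 := by rw [hk]; exact Nat.lt_floor_add_one _
  have hkK : k ≤ K := by
    have h2 : (k : ℝ) < K + 1 := by linarith
    have h3 : k < K + 1 := by exact_mod_cast h2
    omega
  have key : (s - r) ^ 2 ≤ 1 / 4 + 2 * (((k : ℝ) - r) * s) - (k : ℝ) ^ 2 + (r : ℝ) ^ 2 := by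
    nlinarith [mul_nonneg (show 0 ≤ s - k + 1 / 2 by linarith)
      (show 0 ≤ 1 / 2 - (s - k) by linarith)]
  have hU0 : 0 ≤ ∑ m ∈ Finset.Ico r K, max 0 (s - ((m : ℝ) + 1 / 2)) :=
    Finset.sum_nonneg fun _ _ => le_max_left _ _
  have hL0 : 0 ≤ ∑ m ∈ Finset.range r, max 0 ((m : ℝ) + 1 / 2 - s) :=
    Finset.sum_nonneg fun _ _ => le_max_left _ _
  rcases le_total r k with h | h
  · have a1 : ∑ m ∈ Finset.Ico r k, (s - ((m : ℝ) + 1 / 2)) ≤
        ∑ m ∈ Finset.Ico r K, max 0 (s - ((m : ℝ) + 1 / 2)) := by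
      refine (Finset.sum_le_sum fun _ _ => le_max_right 0 _).trans ?_
      apply Finset.sum_le_sum_of_subset_of_nonneg (Finset.Ico_subset_Ico le_rfl hkK)
      intro _ _ _
      exact le_max_left _ _
    rw [Finset.sum_sub_distrib, sum_half_Ico h, Finset.sum_const, nsmul_eq_mul, Nat.card_Ico,
      Nat.cast_sub h] at a1
    linarith
  · have a1 : ∑ m ∈ Finset.Ico k r, ((m : ℝ) + 1 / 2 - s) ≤
        ∑ m ∈ Finset.range r, max 0 ((m : ℝ) + 1 / 2 - s) := by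
      refine (Finset.sum_le_sum fun _ _ => le_max_right 0 _).trans ?_
      apply Finset.sum_le_sum_of_subset_of_nonneg
      · intro m hm
        rw [Finset.mem_Ico] at hm
        rw [Finset.mem_range]
        omega
      · intro _ _ _
        exact le_max_left _ _
    rw [Finset.sum_sub_distrib, sum_half_Ico h, Finset.sum_const, nsmul_eq_mul, Nat.card_Ico,
      Nat.cast_sub h] at a1
    linarith

/-- large sums -/
lemma sq_tail {K r : ℕ} {d : ℕ → ℝ} (h : 2 * (r : ℝ) * K ≤ ∑ j ∈ Finset.range r, d j) :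
    (∑ j ∈ Finset.range r, d j) ^ 2 ≤ 4 * r * ∑ j ∈ Finset.range r, tl K (d j) := by
  obtain ⟨s, hs⟩ : ∃ s, s = ∑ j ∈ Finset.range r, d j := ⟨_, rfl⟩
  obtain ⟨p, hp⟩ : ∃ p : ℕ → ℝ, p = fun j => if (K : ℝ) ≤ d j then d j else 0 := ⟨_, rfl⟩
  obtain ⟨Q, hQ⟩ : ∃ Q, Q = ∑ j ∈ Finset.range r, p j := ⟨_, rfl⟩
  have h1 : s ≤ r * K + Q := by
    rw [hs, hQ]
    calc ∑ j ∈ Finset.range r, d j ≤ ∑ j ∈ Finset.range r, ((K : ℝ) + p j) := by
          apply Finset.sum_le_sum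
          intro j _
          simp only [hp]
          have : (0 : ℝ) ≤ K := Nat.cast_nonneg K
          split_ifs with h2 <;> linarith
      _ = _ := by rw [Finset.sum_add_distrib, Finset.sum_const, nsmul_eq_mul, Finset.card_range]
  have h3 : ∑ j ∈ Finset.range r, tl K (d j) = ∑ j ∈ Finset.range r, (p j) ^ 2 := by
    apply Finset.sum_congr rfl
    intro j _
    simp only [hp, tl]
    split_ifs <;> ring
  have h4 := sq_sum_le_card_mul_sum_sq (s := Finset.range r) (f := p)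
  rw [Finset.card_range, ← hQ] at h4
  rw [h3, ← hs]
  rw [← hs] at h
  have h5 : 0 ≤ 2 * (r : ℝ) * K := by positivity
  have h6 : s / 2 ≤ Q := by linarith
  have h7 : s ^ 2 ≤ 4 * Q ^ 2 := by nlinarith
  linarith

/-- the pointwise bound -/
lemma pt_sq {K r n : ℕ} (hK : 1 ≤ K) (h0 : 0 ≤ sp n r) :
    (sp n r - r) ^ 2 ≤ 1 / 4 +
      2 * ∑ m ∈ Finset.Ico r (2 * r * K), max 0 (sp n r - ((m : ℝ) + 1 / 2)) +
      2 * ∑ m ∈ Finset.range r, max 0 ((m : ℝ) + 1 / 2 - sp n r) +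
      4 * r * ∑ j ∈ Finset.range r, tl K (dlt (n + j)) := by
  have hU0 : 0 ≤ ∑ m ∈ Finset.Ico r (2 * r * K), max 0 (sp n r - ((m : ℝ) + 1 / 2)) :=
    Finset.sum_nonneg fun _ _ => le_max_left _ _
  have hL0 : 0 ≤ ∑ m ∈ Finset.range r, max 0 ((m : ℝ) + 1 / 2 - sp n r) :=
    Finset.sum_nonneg fun _ _ => le_max_left _ _
  have hT0 : 0 ≤ 4 * (r : ℝ) * ∑ j ∈ Finset.range r, tl K (dlt (n + j)) :=
    mul_nonneg (by positivity) (Finset.sum_nonneg fun _ _ => tl_nonneg K _)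
  rcases le_total (sp n r) ((2 * r * K : ℕ) : ℝ) with h | h
  · have := nodes (r := r) h0 h
    linarith
  · have h1 : 2 * (r : ℝ) * K ≤ ∑ j ∈ Finset.range r, dlt (n + j) := by
      rw [sp_sum]
      push_cast at h
      exact h
    have h2 := sq_tail h1
    rw [sp_sum] at h2
    have hK1 : (1 : ℝ) ≤ K := by exact_mod_cast hK
    have hr0 : (0 : ℝ) ≤ r := Nat.cast_nonneg r
    push_cast at h
    have h3 : (r : ℝ) * 1 ≤ r * K := mul_le_mul_of_nonneg_left hK1 hr0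
    have h4 : (r : ℝ) ≤ sp n r := by nlinarith
    have h5 : (sp n r - r) ^ 2 ≤ (sp n r) ^ 2 := pow_le_pow_left₀ (by linarith) (by linarith) 2
    linarith

/-- the constants -/
noncomputable def cc (r m : ℕ) : ℝ :=
  if m < r then 4 * ((r : ℝ) - 1 - m) + 2 else
    if m < 2 * r - 1 then 4 * ((m : ℝ) - r) + 2 else (m : ℝ) * (m + 1) / r

lemma up_c (hRH : RiemannHypothesis) {r m : ℕ} (hr : 1 ≤ r) (hm : r ≤ m) {ε : ℝ} (hε : 0 < ε) :
    ∀ᶠ N : ℕ in atTop, ∑ n ∈ Finset.Icc 1 N, max 0 (sp n r - ((m : ℝ) + 1 / 2)) ≤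
      (Jm m / cc r m + ε) * N := by
  have hmr : (r : ℝ) ≤ m := by exact_mod_cast hm
  have hr1 : (1 : ℝ) ≤ r := by exact_mod_cast hr
  unfold cc
  rw [if_neg (by omega)]
  split_ifs with h
  · apply one_up hRH hr (by linarith) _ hε
    intro M _
    have := consec (((r : ℤ) - M) - ((m : ℤ) - r))
    push_cast at this
    nlinarith
  · have h2r : 2 * (r : ℝ) ≤ m + 1 := by
      have : 2 * r ≤ m + 1 := by omega
      exact_mod_cast this
    apply one_up hRH hr (div_pos (mul_pos (by linarith) (by linarith)) (by linarith)) _ hε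
    intro M hM
    have hM0 : (0 : ℝ) ≤ M := Nat.cast_nonneg M
    rw [div_mul_eq_mul_div, div_le_iff₀ (by linarith)]
    rcases Nat.eq_zero_or_pos M with h0 | h0
    · rw [h0]
      push_cast
      nlinarith
    · have hM1 : (1 : ℝ) ≤ M := by exact_mod_cast h0
      have k1 : 0 ≤ (m : ℝ) * (m + 1 - 2 * r) := mul_nonneg (by linarith) (by linarith)
      have k2 : 0 ≤ (r : ℝ) * (M - 1) := mul_nonneg (by linarith) (by linarith)
      have k3 : 0 ≤ (M : ℝ) * ((m : ℝ) * (m + 1 - 2 * r) + r * (M - 1)) :=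
        mul_nonneg hM0 (by linarith)
      nlinarith

lemma lo_c (hRH : RiemannHypothesis) {r m : ℕ} (hm : m < r) {ε : ℝ} (hε : 0 < ε) :
    ∀ᶠ N : ℕ in atTop, ∑ n ∈ Finset.Icc 1 N, max 0 ((m : ℝ) + 1 / 2 - sp n r) ≤
      (Jm m / cc r m + ε) * N := by
  have hmr : (m : ℝ) + 1 ≤ r := by exact_mod_cast hm
  unfold cc
  rw [if_pos hm]
  apply one_lo hRH (by omega) (by linarith) _ hε
  intro M _
  have := consec (((M : ℤ) - r) - ((r : ℤ) - 1 - m))
  push_cast at this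
  nlinarith

lemma H1_mono {a b : ℕ} (h : a ≤ b) : H1 a ≤ H1 b := by
  unfold H1
  apply Finset.sum_le_sum_of_subset_of_nonneg
  · intro k hk
    rw [Finset.mem_range] at hk ⊢
    omega
  · intro k _ _
    positivity

/-- the tail of the constants -/
lemma tail_b (z n : ℕ) (hz : 1 ≤ z) :
    ∑ m ∈ Finset.Ico z (z + n), (2 + H1 m) / ((m : ℝ) * (m + 1)) ≤
      ((2 + H1 z) / z + 1 / ((z : ℝ) + 1 / 2)) -
        ((2 + H1 (z + n)) / ((z + n : ℕ) : ℝ) + 1 / (((z + n : ℕ) : ℝ) + 1 / 2)) := by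
  induction n with
  | zero => simp
  | succ n ih =>
    rw [← add_assoc, Finset.sum_Ico_succ_top (by omega)]
    obtain ⟨w, hw⟩ : ∃ w : ℕ, w = z + n := ⟨_, rfl⟩
    rw [← hw] at ih ⊢
    have hw0 : (1 : ℝ) ≤ w := by
      have : 1 ≤ w := by omega
      exact_mod_cast this
    rw [H1_succ w]
    push_cast
    obtain ⟨h, hh⟩ : ∃ h, h = H1 w := ⟨_, rfl⟩
    rw [← hh] at ih ⊢
    obtain ⟨t, ht⟩ : ∃ t : ℝ, t = (w : ℝ) := ⟨_, rfl⟩
    rw [← ht] at ih hw0 ⊢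
    have e : ((2 + h) / t + 1 / (t + 1 / 2)) -
      ((2 + (h + 1 / (t + 1))) / (t + 1) + 1 / (t + 1 + 1 / 2)) - (2 + h) / (t * (t + 1)) =
      1 / (t + 1 / 2) - 1 / (t + 1 + 1 / 2) - 1 / (t + 1) ^ 2 := by
      field_simp
      ring
    have a := step_up (z := t + 1) (by linarith)
    have e1 : t + 1 - 1 / 2 = t + 1 / 2 := by ring
    rw [e1] at a
    linarith

/-- the sum of the constants -/
lemma total_c {r K' : ℕ} (hr : 1 ≤ r) (hK : 2 * r - 1 ≤ K') :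
    2 * ∑ m ∈ Finset.Ico r K', Jm m / cc r m + 2 * ∑ m ∈ Finset.range r, Jm m / cc r m ≤
      (2 * Od r * (2 + H1 (2 * r)) + 3 + H1 (2 * r)) / Real.pi ^ 2 := by
  have hpi : 0 < Real.pi ^ 2 := by positivity
  obtain ⟨s, rfl⟩ : ∃ s, r = s + 1 := ⟨r - 1, by omega⟩
  obtain ⟨n, rfl⟩ : ∃ n, K' = (2 * s + 1) + n := ⟨K' - (2 * s + 1), by omega⟩
  have hs0 : (0 : ℝ) ≤ s := Nat.cast_nonneg s
  obtain ⟨b, hb⟩ : ∃ b, b = 2 + H1 (2 * (s + 1)) := ⟨_, rfl⟩
  have hH0 : ∀ m, 0 ≤ H1 m := fun m => Finset.sum_nonneg fun _ _ => by positivity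
  have hb0 : 0 ≤ b := by rw [hb]; linarith [hH0 (2 * (s + 1))]
  have hJ : ∀ m c : ℝ, ∀ k : ℕ, 0 < c → 2 + H1 k ≤ m → Jm k / c ≤ m / c / Real.pi ^ 2 := by
    intro m c k hc hm
    rw [div_div, div_le_div_iff₀ hc (by positivity)]
    have h1 := Jm_le k
    rw [le_div_iff₀ hpi] at h1
    have h2 : Jm k * (c * Real.pi ^ 2) = (Jm k * Real.pi ^ 2) * c := by ring
    rw [h2]
    exact mul_le_mul_of_nonneg_right (h1.trans hm) hc.le
  -- lower part
  have hL : ∑ m ∈ Finset.range (s + 1), Jm m / cc (s + 1) m ≤ b * Od (s + 1) / 2 / Real.pi ^ 2 := by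
    have h1 : ∀ m ∈ Finset.range (s + 1), Jm m / cc (s + 1) m ≤
        b / (2 * (2 * ((s + 1 - 1 - m : ℕ) : ℝ) + 1)) / Real.pi ^ 2 := by
      intro m hm
      rw [Finset.mem_range] at hm
      have e1 : cc (s + 1) m = 2 * (2 * ((s + 1 - 1 - m : ℕ) : ℝ) + 1) := by
        unfold cc
        rw [if_pos hm, show s + 1 - 1 - m = s - m by omega, Nat.cast_sub (by omega)]
        push_cast
        ring
      rw [e1]
      apply hJ _ _ _ (by positivity)
      rw [hb]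
      linarith [H1_mono (show m ≤ 2 * (s + 1) by omega)]
    refine (Finset.sum_le_sum h1).trans (le_of_eq ?_)
    rw [Finset.sum_range_reflect (fun i : ℕ => b / (2 * (2 * (i : ℝ) + 1)) / Real.pi ^ 2) (s + 1)]
    unfold Od
    rw [Finset.mul_sum, Finset.sum_div, Finset.sum_div]
    apply Finset.sum_congr rfl
    intro i _
    field_simp
  -- upper part
  have hsplit : ∑ m ∈ Finset.Ico (s + 1) (2 * s + 1 + n), Jm m / cc (s + 1) m =
      ∑ m ∈ Finset.Ico (s + 1) (2 * s + 1), Jm m / cc (s + 1) m +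
      ∑ m ∈ Finset.Ico (2 * s + 1) (2 * s + 1 + n), Jm m / cc (s + 1) m :=
    (Finset.sum_Ico_consecutive _ (by omega) (by omega)).symm
  have hU1 : ∑ m ∈ Finset.Ico (s + 1) (2 * s + 1), Jm m / cc (s + 1) m ≤
      b * Od s / 2 / Real.pi ^ 2 := by
    rw [Finset.sum_Ico_eq_sum_range, show 2 * s + 1 - (s + 1) = s by omega]
    have h1 : ∀ i ∈ Finset.range s, Jm (s + 1 + i) / cc (s + 1) (s + 1 + i) ≤
        b / (2 * (2 * (i : ℝ) + 1)) / Real.pi ^ 2 := by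
      intro i hi
      rw [Finset.mem_range] at hi
      have e1 : cc (s + 1) (s + 1 + i) = 2 * (2 * (i : ℝ) + 1) := by
        unfold cc
        rw [if_neg (by omega), if_pos (by omega)]
        push_cast
        ring
      rw [e1]
      apply hJ _ _ _ (by positivity)
      rw [hb]
      linarith [H1_mono (show s + 1 + i ≤ 2 * (s + 1) by omega)]
    refine (Finset.sum_le_sum h1).trans (le_of_eq ?_)
    unfold Od
    rw [Finset.mul_sum, Finset.sum_div, Finset.sum_div]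
    apply Finset.sum_congr rfl
    intro i _
    field_simp
  have hU2 : ∑ m ∈ Finset.Ico (2 * s + 1) (2 * s + 1 + n), Jm m / cc (s + 1) m ≤
      ((s : ℝ) + 1) * ((2 + H1 (2 * s + 1)) / ((2 * s + 1 : ℕ) : ℝ) +
        1 / (((2 * s + 1 : ℕ) : ℝ) + 1 / 2)) / Real.pi ^ 2 := by
    have h1 : ∀ m ∈ Finset.Ico (2 * s + 1) (2 * s + 1 + n), Jm m / cc (s + 1) m ≤
        ((s : ℝ) + 1) * ((2 + H1 m) / ((m : ℝ) * (m + 1))) / Real.pi ^ 2 := by
      intro m hm
      rw [Finset.mem_Ico] at hm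
      have hm0 : (0 : ℝ) < m := by
        have : 0 < m := by omega
        exact_mod_cast this
      have e1 : cc (s + 1) m = (m : ℝ) * (m + 1) / ((s : ℝ) + 1) := by
        unfold cc
        rw [if_neg (by omega), if_neg (by omega)]
        push_cast
        ring
      rw [e1]
      refine (hJ (2 + H1 m) _ m (by positivity) le_rfl).trans (le_of_eq ?_)
      field_simp
    refine (Finset.sum_le_sum h1).trans ?_
    rw [← Finset.sum_div, ← Finset.mul_sum]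
    apply div_le_div_of_nonneg_right _ hpi.le
    apply mul_le_mul_of_nonneg_left _ (by linarith)
    have h2 := tail_b (2 * s + 1) n (by omega)
    have h3 : 0 ≤ (2 + H1 (2 * s + 1 + n)) / ((2 * s + 1 + n : ℕ) : ℝ) +
        1 / (((2 * s + 1 + n : ℕ) : ℝ) + 1 / 2) := by
      have := hH0 (2 * s + 1 + n)
      positivity
    linarith
  have hOd : Od (s + 1) = Od s + 1 / (2 * (s : ℝ) + 1) := by
    unfold Od
    exact Finset.sum_range_succ _ _
  have hb1 : b = 2 + H1 (2 * s + 1) + 1 / (2 * (s : ℝ) + 2) := by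
    rw [hb, show 2 * (s + 1) = (2 * s + 1) + 1 by ring, H1_succ]
    push_cast
    ring
  obtain ⟨β, hβ⟩ : ∃ β, β = 2 + H1 (2 * s + 1) := ⟨_, rfl⟩
  rw [← hβ] at hb1 hU2
  obtain ⟨z, hz⟩ : ∃ z : ℝ, z = 2 * s + 1 := ⟨_, rfl⟩
  have hz1 : 1 ≤ z := by linarith
  have e2 : ((2 * s + 1 : ℕ) : ℝ) = z := by
    rw [hz]
    push_cast
    ring
  have e3 : (s : ℝ) + 1 = (z + 1) / 2 := by rw [hz]; ring
  rw [e2, e3] at hU2
  rw [← hz] at hOd
  have e4 : 2 * (s : ℝ) + 2 = z + 1 := by rw [hz]; ring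
  rw [e4] at hb1
  have key : -b / z + (z + 1) * (β / z + 1 / (z + 1 / 2)) ≤ b + 1 := by
    have e5 : b + 1 - (-b / z + (z + 1) * (β / z + 1 / (z + 1 / 2))) =
        1 / z - 1 / (2 * z + 1) := by
      rw [hb1]
      field_simp
      ring
    have e6 : 1 / (2 * z + 1) ≤ 1 / z := one_div_le_one_div_of_le (by linarith) (by linarith)
    linarith
  have hgoal : 2 * Od (s + 1) * (2 + H1 (2 * (s + 1))) + 3 + H1 (2 * (s + 1)) =
      2 * Od (s + 1) * b + b + 1 := by rw [hb]; ring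
  rw [hgoal, hsplit]
  have h9 : 2 * (b * Od s / 2 / Real.pi ^ 2) + 2 * ((z + 1) / 2 * (β / z + 1 / (z + 1 / 2)) /
      Real.pi ^ 2) + 2 * (b * Od (s + 1) / 2 / Real.pi ^ 2) =
      (b * Od s + (z + 1) * (β / z + 1 / (z + 1 / 2)) + b * Od (s + 1)) / Real.pi ^ 2 := by
    field_simp
  have h10 : (b * Od s + (z + 1) * (β / z + 1 / (z + 1 / 2)) + b * Od (s + 1)) / Real.pi ^ 2 ≤
      (2 * Od (s + 1) * b + b + 1) / Real.pi ^ 2 := by
    apply div_le_div_of_nonneg_right _ hpi.le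
    have e7 : Od s = Od (s + 1) - 1 / z := by rw [hOd]; ring
    rw [e7]
    have e8 : b * (Od (s + 1) - 1 / z) = b * Od (s + 1) + -b / z := by ring
    rw [e8]
    linarith
  linarith

/-- **the variance of the sums of `r` consecutive gaps** -/
theorem variance (hRH : RiemannHypothesis) {r : ℕ} (hr : 1 ≤ r) {ε : ℝ} (hε : 0 < ε) :
    ∀ᶠ N : ℕ in atTop, ∑ n ∈ Finset.Icc 1 N, (sp n r - r) ^ 2 ≤
      (1 / 4 + (2 * Od r * (2 + H1 (2 * r)) + 3 + H1 (2 * r)) / Real.pi ^ 2 + ε) * N := by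
  classical
  have hr1 : (1 : ℝ) ≤ r := by exact_mod_cast hr
  obtain ⟨K0, hK0⟩ := tail_shift hRH r (ε := ε / (16 * r)) (by positivity)
  set K := max K0 1 with hK
  have hK1 : 1 ≤ K := le_max_right _ _
  obtain ⟨e, he⟩ : ∃ e : ℝ, e = ε / (8 * ((2 * r * K : ℕ) : ℝ) + 8) := ⟨_, rfl⟩
  have he0 : 0 < e := by rw [he]; positivity
  obtain ⟨n0, hn0⟩ := dlt_nonneg
  set D : ℝ := ∑ n ∈ Finset.range n0, (sp n r - r) ^ 2 with hD
  have hup : ∀ᶠ N : ℕ in atTop, ∀ m ∈ Finset.Ico r (2 * r * K),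
      ∑ n ∈ Finset.Icc 1 N, max 0 (sp n r - ((m : ℝ) + 1 / 2)) ≤ (Jm m / cc r m + e) * N := by
    rw [Filter.eventually_all_finset]
    intro m hm
    rw [Finset.mem_Ico] at hm
    exact up_c hRH hr hm.1 he0
  have hlo : ∀ᶠ N : ℕ in atTop, ∀ m ∈ Finset.range r,
      ∑ n ∈ Finset.Icc 1 N, max 0 ((m : ℝ) + 1 / 2 - sp n r) ≤ (Jm m / cc r m + e) * N := by
    rw [Filter.eventually_all_finset]
    intro m hm
    rw [Finset.mem_range] at hm
    exact lo_c hRH hm he0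
  filter_upwards [hup, hlo, const_small D (ε / 4) (by positivity), eventually_ge_atTop (max r 1)]
    with N h1 h2 h3 hN
  have hN0 : (0 : ℝ) ≤ N := Nat.cast_nonneg N
  have ht := hK0 K (le_max_left _ _) N hN
  have hpt : ∀ n ∈ Finset.Icc 1 N, (sp n r - r) ^ 2 ≤ 1 / 4 +
      2 * ∑ m ∈ Finset.Ico r (2 * r * K), max 0 (sp n r - ((m : ℝ) + 1 / 2)) +
      2 * ∑ m ∈ Finset.range r, max 0 ((m : ℝ) + 1 / 2 - sp n r) +
      4 * r * ∑ j ∈ Finset.range r, tl K (dlt (n + j)) +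
      (if n ∈ Finset.range n0 then (sp n r - r) ^ 2 else 0) := by
    intro n _
    split_ifs with h
    · have hU0 : 0 ≤ ∑ m ∈ Finset.Ico r (2 * r * K), max 0 (sp n r - ((m : ℝ) + 1 / 2)) :=
        Finset.sum_nonneg fun _ _ => le_max_left _ _
      have hL0 : 0 ≤ ∑ m ∈ Finset.range r, max 0 ((m : ℝ) + 1 / 2 - sp n r) :=
        Finset.sum_nonneg fun _ _ => le_max_left _ _
      have hT0 : 0 ≤ 4 * (r : ℝ) * ∑ j ∈ Finset.range r, tl K (dlt (n + j)) :=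
        mul_nonneg (by positivity) (Finset.sum_nonneg fun _ _ => tl_nonneg K _)
      linarith
    · rw [Finset.mem_range, not_lt] at h
      have hs : 0 ≤ sp n r := by
        rw [← sp_sum]
        exact Finset.sum_nonneg fun j _ => hn0 _ (by omega)
      have := pt_sq hK1 hs
      linarith
  have hsum := Finset.sum_le_sum hpt
  simp only [Finset.sum_add_distrib, ← Finset.mul_sum] at hsum
  rw [Finset.sum_const, nsmul_eq_mul, Nat.card_Icc, Nat.add_sub_cancel] at hsum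
  have b3 : ∑ n ∈ Finset.Icc 1 N, (if n ∈ Finset.range n0 then (sp n r - r) ^ 2 else 0) ≤ D := by
    rw [← Finset.sum_filter]
    apply Finset.sum_le_sum_of_subset_of_nonneg
    · intro n hn
      exact (Finset.mem_filter.1 hn).2
    · intro n _ _
      positivity
  have c1 : ∑ n ∈ Finset.Icc 1 N, ∑ m ∈ Finset.Ico r (2 * r * K),
      max 0 (sp n r - ((m : ℝ) + 1 / 2)) ≤
      (∑ m ∈ Finset.Ico r (2 * r * K), Jm m / cc r m + ((2 * r * K : ℕ) : ℝ) * e) * N := by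
    rw [Finset.sum_comm]
    refine (Finset.sum_le_sum h1).trans ?_
    rw [← Finset.sum_mul, Finset.sum_add_distrib, Finset.sum_const, nsmul_eq_mul, Nat.card_Ico]
    apply mul_le_mul_of_nonneg_right _ hN0
    have a1 : ((2 * r * K - r : ℕ) : ℝ) ≤ ((2 * r * K : ℕ) : ℝ) := by
      exact_mod_cast Nat.sub_le _ _
    have a2 := mul_le_mul_of_nonneg_right a1 he0.le
    linarith
  have c2 : ∑ n ∈ Finset.Icc 1 N, ∑ m ∈ Finset.range r, max 0 ((m : ℝ) + 1 / 2 - sp n r) ≤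
      (∑ m ∈ Finset.range r, Jm m / cc r m + ((2 * r * K : ℕ) : ℝ) * e) * N := by
    rw [Finset.sum_comm]
    refine (Finset.sum_le_sum h2).trans ?_
    rw [← Finset.sum_mul, Finset.sum_add_distrib, Finset.sum_const, nsmul_eq_mul,
      Finset.card_range]
    apply mul_le_mul_of_nonneg_right _ hN0
    have a1 : (r : ℝ) ≤ ((2 * r * K : ℕ) : ℝ) := by
      have : r ≤ 2 * r * K := by nlinarith
      exact_mod_cast this
    have a2 := mul_le_mul_of_nonneg_right a1 he0.le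
    linarith
  have c3 := total_c (r := r) (K' := 2 * r * K) hr (by
    have : 2 * r ≤ 2 * r * K := Nat.le_mul_of_pos_right _ (by omega)
    omega)
  have c4 : 4 * (r : ℝ) * ∑ n ∈ Finset.Icc 1 N, ∑ j ∈ Finset.range r, tl K (dlt (n + j)) ≤
      ε / 4 * N := by
    have a1 := mul_le_mul_of_nonneg_left ht (show (0 : ℝ) ≤ 4 * r by linarith)
    have a2 : 4 * (r : ℝ) * (ε / (16 * r) * N) = ε / 4 * N := by
      field_simp
      ring
    linarith
  have c5 : 4 * (((2 * r * K : ℕ) : ℝ) * e) ≤ ε / 2 := by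
    rw [he]
    have h0 : (0 : ℝ) ≤ ((2 * r * K : ℕ) : ℝ) := Nat.cast_nonneg _
    rw [← mul_assoc, mul_div_assoc', div_le_iff₀ (by positivity)]
    nlinarith
  obtain ⟨A1, hA1⟩ : ∃ A, A = ∑ m ∈ Finset.Ico r (2 * r * K), Jm m / cc r m := ⟨_, rfl⟩
  obtain ⟨A2, hA2⟩ : ∃ A, A = ∑ m ∈ Finset.range r, Jm m / cc r m := ⟨_, rfl⟩
  obtain ⟨C, hC⟩ : ∃ C, C = (2 * Od r * (2 + H1 (2 * r)) + 3 + H1 (2 * r)) / Real.pi ^ 2 :=
    ⟨_, rfl⟩
  obtain ⟨L, hL⟩ : ∃ L, L = ((2 * r * K : ℕ) : ℝ) * e := ⟨_, rfl⟩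
  rw [← hA1, ← hL] at c1
  rw [← hA2, ← hL] at c2
  rw [← hA1, ← hA2, ← hC] at c3
  rw [← hL] at c5
  rw [← hC]
  have c6 := mul_le_mul_of_nonneg_right c3 hN0
  have c7 := mul_le_mul_of_nonneg_right c5 hN0
  have e1 : (A1 + L) * (N : ℝ) = A1 * N + L * N := by ring
  have e2 : (A2 + L) * (N : ℝ) = A2 * N + L * N := by ring
  have e3 : (2 * A1 + 2 * A2) * (N : ℝ) = 2 * (A1 * N) + 2 * (A2 * N) := by ring
  have e4 : (4 * L) * (N : ℝ) = 4 * (L * N) := by ring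
  have e5 : (1 / 4 + C + ε) * (N : ℝ) = 1 / 4 * N + C * N + ε / 2 * N + ε / 4 * N + ε / 4 * N := by
    ring
  rw [e1] at c1
  rw [e2] at c2
  rw [e3] at c6
  rw [e4] at c7
  rw [e5]
  linarith

end Pool.Agent.H707.NB
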