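import Pool.Agent.H707.SM.Win

/-! The sums of consecutive gaps of a finite sequence are controlled by its pairs. -/

open Set Filter Topology MeasureTheory

namespace Pool.Agent.H707.NB

open Pool.Agent.H707.SM (chi chi_of_mem chi_of_not chi_int integral_chi chi_mul)

lemma sum_low (M m : ℕ) : 2 * ∑ r ∈ Finset.Icc 1 m, ((r - M : ℕ) : ℝ) =
    ((m - M : ℕ) : ℝ) * (((m - M : ℕ) : ℝ) + 1) := by
  induction m with
  | zero => simp
  | succ m ih =>
    rw [Finset.sum_Icc_succ_top (by omega), mul_add, ih]
    rcases le_or_gt M m with h | h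
    · rw [show m + 1 - M = (m - M) + 1 by omega]
      push_cast
      ring
    · rw [show m - M = 0 by omega, show m + 1 - M = 0 by omega]
      push_cast
      ring

lemma sum_high (M m R : ℕ) : 2 * ∑ r ∈ Finset.Icc (m + 1) (m + R), ((M - r : ℕ) : ℝ) +
    ((M - (m + R) : ℕ) : ℝ) * ((M - (m + R) - 1 : ℕ) : ℝ) =
    ((M - m : ℕ) : ℝ) * ((M - m - 1 : ℕ) : ℝ) := by
  induction R with
  | zero => simp
  | succ R ih =>
    rw [← ih, show m + (R + 1) = (m + R) + 1 by omega, Finset.sum_Icc_succ_top (by omega)]
    rcases le_or_gt M (m + R) with h | h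
    · rw [show M - (m + R) = 0 by omega, show M - (m + R + 1) = 0 by omega]
      simp
    · obtain ⟨j, hj⟩ := Nat.exists_eq_add_of_lt h
      rw [show M - (m + R) = j + 1 by omega, show M - (m + R + 1) = j by omega,
        show j + 1 - 1 = j by omega]
      rcases Nat.eq_zero_or_pos j with h0 | h0
      · rw [h0]
        push_cast
        ring
      · have : ((j - 1 : ℕ) : ℝ) = (j : ℝ) - 1 := by
          rw [Nat.cast_sub h0, Nat.cast_one]
        rw [this]
        push_cast
        ring

lemma comb (M m R : ℕ) : 2 * ∑ r ∈ Finset.Icc 1 m, ((r - M : ℕ) : ℝ) +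
    2 * ∑ r ∈ Finset.Icc (m + 1) (m + R), ((M - r : ℕ) : ℝ) ≤
    (M : ℝ) ^ 2 - (2 * m + 1) * M + m * (m + 1) := by
  have h1 := sum_low M m
  have h2 := sum_high M m R
  have h3 : 0 ≤ ((M - (m + R) : ℕ) : ℝ) * ((M - (m + R) - 1 : ℕ) : ℝ) := by positivity
  rcases le_or_gt M m with h | h
  · have h4 : M - m = 0 := by omega
    rw [h4] at h2
    have h5 : ((m - M : ℕ) : ℝ) = (m : ℝ) - M := Nat.cast_sub h
    rw [h5] at h1
    rw [h1]
    push_cast at h2
    nlinarith
  · have h4 : m - M = 0 := by omega
    rw [h4] at h1
    have h5 : ((M - m : ℕ) : ℝ) = (M : ℝ) - m := Nat.cast_sub h.le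
    have h6 : ((M - m - 1 : ℕ) : ℝ) = (M : ℝ) - m - 1 := by
      rw [Nat.cast_sub (by omega), h5, Nat.cast_one]
    rw [h5, h6] at h2
    push_cast at h1
    nlinarith

/-- the index of the first point after `t` -/
lemma exists_idx {y : ℕ → ℝ} {a b : ℕ} (hab : a ≤ b)
    (hy : ∀ n k : ℕ, a ≤ n → n ≤ k → k ≤ b → y n ≤ y k) (t : ℝ) :
    ∃ p : ℕ, a ≤ p ∧ p ≤ b + 1 ∧ ∀ k : ℕ, a ≤ k → k ≤ b → (y k ≤ t ↔ k < p) := by
  classical
  have hex : ∃ k : ℕ, a ≤ k ∧ (b < k ∨ t < y k) := ⟨b + 1, by omega, Or.inl (by omega)⟩
  refine ⟨Nat.find hex, (Nat.find_spec hex).1, Nat.find_min' hex ⟨by omega, Or.inl (by omega)⟩, ?_⟩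
  intro k hk1 hk2
  constructor
  · intro h
    by_contra h1
    rw [not_lt] at h1
    rcases (Nat.find_spec hex).2 with h2 | h2
    · omega
    · have := hy _ k (Nat.find_spec hex).1 h1 hk2
      linarith
  · intro h
    have h1 := Nat.find_min hex h
    by_contra h2
    rw [not_le] at h2
    exact h1 ⟨hk1, Or.inr h2⟩

/-- **the window inequality for all neighbours** -/
theorem window_all {y : ℕ → ℝ} {a b : ℕ} (hab : a ≤ b)
    (hy : ∀ n k : ℕ, a ≤ n → n ≤ k → k ≤ b → y n ≤ y k) {x : ℝ} (hx : 0 < x) (m R : ℕ) :
    2 * ∑ r ∈ Finset.Icc 1 m, ∑ n ∈ (Finset.Icc a b).filter (fun n => n + r ≤ b),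
        max 0 (y (n + r) - y n - x) +
      2 * ∑ r ∈ Finset.Icc (m + 1) (m + R), ∑ n ∈ (Finset.Icc a b).filter (fun n => n + r ≤ b),
        max 0 (x - (y (n + r) - y n)) ≤
      ∑ n ∈ Finset.Icc a b, ∑ k ∈ Finset.Icc a b, max 0 (x - |y n - y k|) -
        (2 * m + 1) * x * (Finset.Icc a b).card + (m : ℝ) * (m + 1) * (y b - y a + x) := by
  classical
  -- the pointwise inequality
  have pt : ∀ t : ℝ, 2 * ∑ r ∈ Finset.Icc 1 m, ∑ n ∈ (Finset.Icc a b).filter (fun n => n + r ≤ b),
        chi (y n) (y (n + r) - x) t +
      2 * ∑ r ∈ Finset.Icc (m + 1) (m + R), ∑ n ∈ (Finset.Icc a b).filter (fun n => n + r ≤ b),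
        chi (y (n + r) - x) (y n) t ≤
      ∑ n ∈ Finset.Icc a b, ∑ k ∈ Finset.Icc a b, chi (max (y n - x) (y k - x)) (min (y n) (y k)) t -
        (2 * m + 1) * ∑ n ∈ Finset.Icc a b, chi (y n - x) (y n) t +
        (m : ℝ) * (m + 1) * chi (y a - x) (y b) t := by
    intro t
    have e1 : ∑ n ∈ Finset.Icc a b, ∑ k ∈ Finset.Icc a b,
        chi (max (y n - x) (y k - x)) (min (y n) (y k)) t =
        (∑ n ∈ Finset.Icc a b, chi (y n - x) (y n) t) ^ 2 := by
      rw [sq, Finset.sum_mul_sum]
      apply Finset.sum_congr rfl
      intro n _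
      apply Finset.sum_congr rfl
      intro k _
      rw [chi_mul]
    rw [e1]
    by_cases hI : y a - x ≤ t ∧ t < y b
    · rw [chi_of_mem hI.1 hI.2]
      obtain ⟨p, hp1, hp2, hp⟩ := exists_idx hab hy t
      obtain ⟨q, hq1, hq2, hq⟩ := exists_idx hab hy (t + x)
      have hpq : p ≤ q := by
        by_contra h
        rw [not_le] at h
        have h1 := (hp q hq1 (by omega)).2 h
        have h2 := (hq q hq1 (by omega)).1 (by linarith)
        omega
      -- the number of points in the window
      have hM : ∑ n ∈ Finset.Icc a b, chi (y n - x) (y n) t = ((q - p : ℕ) : ℝ) := by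
        have h1 : ∑ n ∈ Finset.Icc a b, chi (y n - x) (y n) t =
            (((Finset.Icc a b).filter (fun n => p ≤ n ∧ n < q)).card : ℝ) := by
          rw [Finset.card_filter]
          push_cast
          apply Finset.sum_congr rfl
          intro n hn
          rw [Finset.mem_Icc] at hn
          have a1 := hp n hn.1 hn.2
          have a2 := hq n hn.1 hn.2
          split_ifs with h
          · apply chi_of_mem
            · have := a2.2 h.2
              linarith
            · by_contra h3
              rw [not_lt] at h3
              have := a1.1 h3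
              omega
          · apply chi_of_not
            rintro ⟨h3, h4⟩
            apply h
            constructor
            · by_contra h5
              rw [not_le] at h5
              have := a1.2 h5
              linarith
            · exact a2.1 (by linarith)
        have h2 : (Finset.Icc a b).filter (fun n => p ≤ n ∧ n < q) = Finset.Ico p q := by
          ext n
          rw [Finset.mem_filter, Finset.mem_Icc, Finset.mem_Ico]
          omega
        rw [h1, h2, Nat.card_Ico]
      -- the long sums
      have hA : ∀ r ∈ Finset.Icc 1 m, ∑ n ∈ (Finset.Icc a b).filter (fun n => n + r ≤ b),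
          chi (y n) (y (n + r) - x) t ≤ ((r - (q - p) : ℕ) : ℝ) := by
        intro r _
        have h1 : ∑ n ∈ (Finset.Icc a b).filter (fun n => n + r ≤ b),
            chi (y n) (y (n + r) - x) t =
            ((((Finset.Icc a b).filter (fun n => n + r ≤ b)).filter
              (fun n => n < p ∧ q ≤ n + r)).card : ℝ) := by
          rw [Finset.card_filter]
          push_cast
          apply Finset.sum_congr rfl
          intro n hn
          rw [Finset.mem_filter, Finset.mem_Icc] at hn
          have a1 := hp n hn.1.1 hn.1.2
          have a2 := hq (n + r) (by omega) hn.2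
          split_ifs with h
          · apply chi_of_mem
            · exact a1.2 h.1
            · by_contra h3
              rw [not_lt] at h3
              have := a2.1 (by linarith)
              omega
          · apply chi_of_not
            rintro ⟨h3, h4⟩
            apply h
            constructor
            · exact a1.1 h3
            · by_contra h5
              rw [not_le] at h5
              have := a2.2 h5
              linarith
        have h2 : ((Finset.Icc a b).filter (fun n => n + r ≤ b)).filter
            (fun n => n < p ∧ q ≤ n + r) ⊆ Finset.Ico (q - r) p := by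
          intro n hn
          rw [Finset.mem_filter, Finset.mem_filter, Finset.mem_Icc] at hn
          rw [Finset.mem_Ico]
          omega
        have h3 := Finset.card_le_card h2
        rw [Nat.card_Ico] at h3
        rw [h1]
        have h4 : p - (q - r) ≤ r - (q - p) := by omega
        exact_mod_cast h3.trans h4
      -- the short sums
      have hB : ∀ r ∈ Finset.Icc (m + 1) (m + R),
          ∑ n ∈ (Finset.Icc a b).filter (fun n => n + r ≤ b),
          chi (y (n + r) - x) (y n) t ≤ (((q - p) - r : ℕ) : ℝ) := by
        intro r _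
        have h1 : ∑ n ∈ (Finset.Icc a b).filter (fun n => n + r ≤ b),
            chi (y (n + r) - x) (y n) t =
            ((((Finset.Icc a b).filter (fun n => n + r ≤ b)).filter
              (fun n => p ≤ n ∧ n + r < q)).card : ℝ) := by
          rw [Finset.card_filter]
          push_cast
          apply Finset.sum_congr rfl
          intro n hn
          rw [Finset.mem_filter, Finset.mem_Icc] at hn
          have a1 := hp n hn.1.1 hn.1.2
          have a2 := hq (n + r) (by omega) hn.2
          split_ifs with h
          · apply chi_of_mem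
            · have := a2.2 h.2
              linarith
            · by_contra h3
              rw [not_lt] at h3
              have := a1.1 h3
              omega
          · apply chi_of_not
            rintro ⟨h3, h4⟩
            apply h
            constructor
            · by_contra h5
              rw [not_le] at h5
              have := a1.2 h5
              linarith
            · exact a2.1 (by linarith)
        have h2 : ((Finset.Icc a b).filter (fun n => n + r ≤ b)).filter
            (fun n => p ≤ n ∧ n + r < q) ⊆ Finset.Ico p (q - r) := by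
          intro n hn
          rw [Finset.mem_filter, Finset.mem_filter, Finset.mem_Icc] at hn
          rw [Finset.mem_Ico]
          omega
        have h3 := Finset.card_le_card h2
        rw [Nat.card_Ico] at h3
        rw [h1]
        have h4 : (q - r) - p ≤ (q - p) - r := by omega
        exact_mod_cast h3.trans h4
      have hc := comb (q - p) m R
      have hA' := Finset.sum_le_sum hA
      have hB' := Finset.sum_le_sum hB
      rw [hM]
      linarith
    · have hz1 : ∑ n ∈ Finset.Icc a b, chi (y n - x) (y n) t = 0 := by
        apply Finset.sum_eq_zero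
        intro k hk
        rw [Finset.mem_Icc] at hk
        apply chi_of_not
        rintro ⟨h3, h4⟩
        apply hI
        have h5 := hy a k le_rfl hk.1 hk.2
        have h6 := hy k b hk.1 hk.2 le_rfl
        exact ⟨by linarith, by linarith⟩
      have hz2 : ∑ r ∈ Finset.Icc 1 m, ∑ n ∈ (Finset.Icc a b).filter (fun n => n + r ≤ b),
          chi (y n) (y (n + r) - x) t = 0 := by
        apply Finset.sum_eq_zero
        intro r _
        apply Finset.sum_eq_zero
        intro k hk
        rw [Finset.mem_filter, Finset.mem_Icc] at hk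
        apply chi_of_not
        rintro ⟨h3, h4⟩
        apply hI
        have h5 := hy a k le_rfl hk.1.1 hk.1.2
        have h6 := hy (k + r) b (by omega) hk.2 le_rfl
        exact ⟨by linarith, by linarith⟩
      have hz3 : ∑ r ∈ Finset.Icc (m + 1) (m + R),
          ∑ n ∈ (Finset.Icc a b).filter (fun n => n + r ≤ b), chi (y (n + r) - x) (y n) t = 0 := by
        apply Finset.sum_eq_zero
        intro r _
        apply Finset.sum_eq_zero
        intro k hk
        rw [Finset.mem_filter, Finset.mem_Icc] at hk
        apply chi_of_not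
        rintro ⟨h3, h4⟩
        apply hI
        have h5 := hy a (k + r) le_rfl (by omega) hk.2
        have h6 := hy k b hk.1.1 hk.1.2 le_rfl
        exact ⟨by linarith, by linarith⟩
      rw [hz1, hz2, hz3, chi_of_not hI]
      simp
  have i1 : Integrable fun t => 2 * ∑ r ∈ Finset.Icc 1 m,
      ∑ n ∈ (Finset.Icc a b).filter (fun n => n + r ≤ b), chi (y n) (y (n + r) - x) t :=
    (integrable_finsetSum _ fun r _ => integrable_finsetSum _ fun n _ => chi_int _ _).const_mul _
  have i2 : Integrable fun t => 2 * ∑ r ∈ Finset.Icc (m + 1) (m + R),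
      ∑ n ∈ (Finset.Icc a b).filter (fun n => n + r ≤ b), chi (y (n + r) - x) (y n) t :=
    (integrable_finsetSum _ fun r _ => integrable_finsetSum _ fun n _ => chi_int _ _).const_mul _
  have j1 : Integrable fun t => ∑ n ∈ Finset.Icc a b, ∑ k ∈ Finset.Icc a b,
      chi (max (y n - x) (y k - x)) (min (y n) (y k)) t :=
    integrable_finsetSum _ fun n _ => integrable_finsetSum _ fun k _ => chi_int _ _
  have j2 : Integrable fun t => (2 * (m : ℝ) + 1) * ∑ n ∈ Finset.Icc a b, chi (y n - x) (y n) t :=
    (integrable_finsetSum _ fun n _ => chi_int _ _).const_mul _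
  have j3 : Integrable fun t => (m : ℝ) * (m + 1) * chi (y a - x) (y b) t :=
    (chi_int _ _).const_mul _
  have j12 : Integrable fun t => ∑ n ∈ Finset.Icc a b, ∑ k ∈ Finset.Icc a b,
      chi (max (y n - x) (y k - x)) (min (y n) (y k)) t -
        (2 * (m : ℝ) + 1) * ∑ n ∈ Finset.Icc a b, chi (y n - x) (y n) t := j1.sub j2
  have h := integral_mono (i1.add i2) (j12.add j3) pt
  have r1 : ∫ t, (2 * ∑ r ∈ Finset.Icc 1 m,
      ∑ n ∈ (Finset.Icc a b).filter (fun n => n + r ≤ b), chi (y n) (y (n + r) - x) t +
      2 * ∑ r ∈ Finset.Icc (m + 1) (m + R),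
      ∑ n ∈ (Finset.Icc a b).filter (fun n => n + r ≤ b), chi (y (n + r) - x) (y n) t) =
      2 * ∑ r ∈ Finset.Icc 1 m, ∑ n ∈ (Finset.Icc a b).filter (fun n => n + r ≤ b),
        max 0 (y (n + r) - y n - x) +
      2 * ∑ r ∈ Finset.Icc (m + 1) (m + R), ∑ n ∈ (Finset.Icc a b).filter (fun n => n + r ≤ b),
        max 0 (x - (y (n + r) - y n)) := by
    rw [integral_add i1 i2, integral_const_mul, integral_const_mul,
      integral_finsetSum _ fun r _ => integrable_finsetSum _ fun n _ => chi_int _ _,
      integral_finsetSum _ fun r _ => integrable_finsetSum _ fun n _ => chi_int _ _]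
    congr 2
    · apply Finset.sum_congr rfl
      intro r _
      rw [integral_finsetSum _ fun n _ => chi_int _ _]
      apply Finset.sum_congr rfl
      intro n _
      rw [integral_chi]
      congr 1
      ring
    · apply Finset.sum_congr rfl
      intro r _
      rw [integral_finsetSum _ fun n _ => chi_int _ _]
      apply Finset.sum_congr rfl
      intro n _
      rw [integral_chi]
      congr 1
      ring
  have r2 : ∫ t, ((∑ n ∈ Finset.Icc a b, ∑ k ∈ Finset.Icc a b,
      chi (max (y n - x) (y k - x)) (min (y n) (y k)) t -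
        (2 * (m : ℝ) + 1) * ∑ n ∈ Finset.Icc a b, chi (y n - x) (y n) t) +
        (m : ℝ) * (m + 1) * chi (y a - x) (y b) t) =
      ∑ n ∈ Finset.Icc a b, ∑ k ∈ Finset.Icc a b, max 0 (x - |y n - y k|) -
        (2 * m + 1) * x * (Finset.Icc a b).card + (m : ℝ) * (m + 1) * (y b - y a + x) := by
    rw [integral_add j12 j3, integral_sub j1 j2, integral_const_mul, integral_const_mul,
      integral_chi, integral_finsetSum _ fun n _ => chi_int _ _,
      integral_finsetSum _ fun n _ => integrable_finsetSum _ fun k _ => chi_int _ _]
    have e1 : ∑ n ∈ Finset.Icc a b, ∫ t, ∑ k ∈ Finset.Icc a b,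
        chi (max (y n - x) (y k - x)) (min (y n) (y k)) t =
        ∑ n ∈ Finset.Icc a b, ∑ k ∈ Finset.Icc a b, max 0 (x - |y n - y k|) := by
      apply Finset.sum_congr rfl
      intro n _
      rw [integral_finsetSum _ fun k _ => chi_int _ _]
      apply Finset.sum_congr rfl
      intro k _
      rw [integral_chi]
      congr 1
      rcases le_total (y n) (y k) with h1 | h1
      · rw [min_eq_left h1, max_eq_right (by linarith), abs_of_nonpos (by linarith)]
        ring
      · rw [min_eq_right h1, max_eq_left (by linarith), abs_of_nonneg (by linarith)]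
        ring
    have e2 : ∑ n ∈ Finset.Icc a b, ∫ t, chi (y n - x) (y n) t = x * (Finset.Icc a b).card := by
      have : ∀ n ∈ Finset.Icc a b, ∫ t, chi (y n - x) (y n) t = x := by
        intro n _
        rw [integral_chi, max_eq_right (by linarith)]
        ring
      rw [Finset.sum_congr rfl this, Finset.sum_const, nsmul_eq_mul]
      ring
    have e3 : max 0 (y b - (y a - x)) = y b - y a + x := by
      have := hy a b le_rfl hab le_rfl
      rw [max_eq_right (by linarith)]
      ring
    rw [e1, e2, e3]
    ring
  exact (le_of_eq r1.symm).trans (h.trans (le_of_eq r2))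

end Pool.Agent.H707.NB
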