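import Pool.Agent.H707.NB.Win

/-! The window inequality with weights. -/

open Set Filter Topology MeasureTheory

namespace Pool.Agent.H707.NB

open Pool.Agent.H707.SM (chi chi_of_mem chi_of_not chi_int integral_chi chi_mul)

/-- **the window inequality with weights** -/
theorem window_w {y : ℕ → ℝ} {a b : ℕ} (hab : a ≤ b)
    (hy : ∀ n k : ℕ, a ≤ n → n ≤ k → k ≤ b → y n ≤ y k) {x : ℝ} (hx : 0 < x) (m P : ℕ)
    {u v : ℕ → ℝ} (hu : ∀ r, 0 ≤ u r) (hv : ∀ r, 0 ≤ v r)
    (hw : ∀ M : ℕ, ∑ r ∈ Finset.Icc 1 P, (u r * ((r - M : ℕ) : ℝ) + v r * ((M - r : ℕ) : ℝ)) ≤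
      (M : ℝ) ^ 2 - (2 * m + 1) * M + m * (m + 1)) :
    ∑ r ∈ Finset.Icc 1 P, (u r * ∑ n ∈ (Finset.Icc a b).filter (fun n => n + r ≤ b),
        max 0 (y (n + r) - y n - x) +
      v r * ∑ n ∈ (Finset.Icc a b).filter (fun n => n + r ≤ b),
        max 0 (x - (y (n + r) - y n))) ≤
      ∑ n ∈ Finset.Icc a b, ∑ k ∈ Finset.Icc a b, max 0 (x - |y n - y k|) -
        (2 * m + 1) * x * (Finset.Icc a b).card + (m : ℝ) * (m + 1) * (y b - y a + x) := by
  classical
  -- the pointwise inequality
  have pt : ∀ t : ℝ, ∑ r ∈ Finset.Icc 1 P,
      (u r * ∑ n ∈ (Finset.Icc a b).filter (fun n => n + r ≤ b), chi (y n) (y (n + r) - x) t +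
      v r * ∑ n ∈ (Finset.Icc a b).filter (fun n => n + r ≤ b), chi (y (n + r) - x) (y n) t) ≤
      ∑ n ∈ Finset.Icc a b, ∑ k ∈ Finset.Icc a b, chi (max (y n - x) (y k - x)) (min (y n) (y k)) t -
        (2 * m + 1) * ∑ n ∈ Finset.Icc a b, chi (y n - x) (y n) t +
        (m : ℝ) * (m + 1) * chi (y a - x) (y b) t := by
    intro t
    have e1 : ∑ n ∈ Finset.Icc a b, ∑ k ∈ Finset.Icc a b,
        chi (max (y n - x) (y k - x)) (min (y n) (y k)) t =
        (∑ n ∈ Finset.Icc a b, chi (y n - x) (y n) t) ^ 2 := by
      rw [sq, Finset.sum_mul_sum]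
      apply Finset.sum_congr rfl
      intro n _
      apply Finset.sum_congr rfl
      intro k _
      rw [chi_mul]
    rw [e1]
    by_cases hI : y a - x ≤ t ∧ t < y b
    · rw [chi_of_mem hI.1 hI.2]
      obtain ⟨p, hp1, hp2, hp⟩ := exists_idx hab hy t
      obtain ⟨q, hq1, hq2, hq⟩ := exists_idx hab hy (t + x)
      have hpq : p ≤ q := by
        by_contra h
        rw [not_le] at h
        have h1 := (hp q hq1 (by omega)).2 h
        have h2 := (hq q hq1 (by omega)).1 (by linarith)
        omega
      -- the number of points in the window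
      have hM : ∑ n ∈ Finset.Icc a b, chi (y n - x) (y n) t = ((q - p : ℕ) : ℝ) := by
        have h1 : ∑ n ∈ Finset.Icc a b, chi (y n - x) (y n) t =
            (((Finset.Icc a b).filter (fun n => p ≤ n ∧ n < q)).card : ℝ) := by
          rw [Finset.card_filter]
          push_cast
          apply Finset.sum_congr rfl
          intro n hn
          rw [Finset.mem_Icc] at hn
          have a1 := hp n hn.1 hn.2
          have a2 := hq n hn.1 hn.2
          split_ifs with h
          · apply chi_of_mem
            · have := a2.2 h.2
              linarith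
            · by_contra h3
              rw [not_lt] at h3
              have := a1.1 h3
              omega
          · apply chi_of_not
            rintro ⟨h3, h4⟩
            apply h
            constructor
            · by_contra h5
              rw [not_le] at h5
              have := a1.2 h5
              linarith
            · exact a2.1 (by linarith)
        have h2 : (Finset.Icc a b).filter (fun n => p ≤ n ∧ n < q) = Finset.Ico p q := by
          ext n
          rw [Finset.mem_filter, Finset.mem_Icc, Finset.mem_Ico]
          omega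
        rw [h1, h2, Nat.card_Ico]
      -- the long sums
      have hA : ∀ r : ℕ, ∑ n ∈ (Finset.Icc a b).filter (fun n => n + r ≤ b),
          chi (y n) (y (n + r) - x) t ≤ ((r - (q - p) : ℕ) : ℝ) := by
        intro r
        have h1 : ∑ n ∈ (Finset.Icc a b).filter (fun n => n + r ≤ b),
            chi (y n) (y (n + r) - x) t =
            ((((Finset.Icc a b).filter (fun n => n + r ≤ b)).filter
              (fun n => n < p ∧ q ≤ n + r)).card : ℝ) := by
          rw [Finset.card_filter]
          push_cast
          apply Finset.sum_congr rfl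
          intro n hn
          rw [Finset.mem_filter, Finset.mem_Icc] at hn
          have a1 := hp n hn.1.1 hn.1.2
          have a2 := hq (n + r) (by omega) hn.2
          split_ifs with h
          · apply chi_of_mem
            · exact a1.2 h.1
            · by_contra h3
              rw [not_lt] at h3
              have := a2.1 (by linarith)
              omega
          · apply chi_of_not
            rintro ⟨h3, h4⟩
            apply h
            constructor
            · exact a1.1 h3
            · by_contra h5
              rw [not_le] at h5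
              have := a2.2 h5
              linarith
        have h2 : ((Finset.Icc a b).filter (fun n => n + r ≤ b)).filter
            (fun n => n < p ∧ q ≤ n + r) ⊆ Finset.Ico (q - r) p := by
          intro n hn
          rw [Finset.mem_filter, Finset.mem_filter, Finset.mem_Icc] at hn
          rw [Finset.mem_Ico]
          omega
        have h3 := Finset.card_le_card h2
        rw [Nat.card_Ico] at h3
        rw [h1]
        have h4 : p - (q - r) ≤ r - (q - p) := by omega
        exact_mod_cast h3.trans h4
      -- the short sums
      have hB : ∀ r : ℕ,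
          ∑ n ∈ (Finset.Icc a b).filter (fun n => n + r ≤ b),
          chi (y (n + r) - x) (y n) t ≤ (((q - p) - r : ℕ) : ℝ) := by
        intro r
        have h1 : ∑ n ∈ (Finset.Icc a b).filter (fun n => n + r ≤ b),
            chi (y (n + r) - x) (y n) t =
            ((((Finset.Icc a b).filter (fun n => n + r ≤ b)).filter
              (fun n => p ≤ n ∧ n + r < q)).card : ℝ) := by
          rw [Finset.card_filter]
          push_cast
          apply Finset.sum_congr rfl
          intro n hn
          rw [Finset.mem_filter, Finset.mem_Icc] at hn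
          have a1 := hp n hn.1.1 hn.1.2
          have a2 := hq (n + r) (by omega) hn.2
          split_ifs with h
          · apply chi_of_mem
            · have := a2.2 h.2
              linarith
            · by_contra h3
              rw [not_lt] at h3
              have := a1.1 h3
              omega
          · apply chi_of_not
            rintro ⟨h3, h4⟩
            apply h
            constructor
            · by_contra h5
              rw [not_le] at h5
              have := a1.2 h5
              linarith
            · exact a2.1 (by linarith)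
        have h2 : ((Finset.Icc a b).filter (fun n => n + r ≤ b)).filter
            (fun n => p ≤ n ∧ n + r < q) ⊆ Finset.Ico p (q - r) := by
          intro n hn
          rw [Finset.mem_filter, Finset.mem_filter, Finset.mem_Icc] at hn
          rw [Finset.mem_Ico]
          omega
        have h3 := Finset.card_le_card h2
        rw [Nat.card_Ico] at h3
        rw [h1]
        have h4 : (q - r) - p ≤ (q - p) - r := by omega
        exact_mod_cast h3.trans h4
      have hc := hw (q - p)
      have hAB := Finset.sum_le_sum (s := Finset.Icc 1 P) fun r _ =>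
        add_le_add (mul_le_mul_of_nonneg_left (hA r) (hu r))
          (mul_le_mul_of_nonneg_left (hB r) (hv r))
      rw [hM]
      linarith
    · have hz1 : ∑ n ∈ Finset.Icc a b, chi (y n - x) (y n) t = 0 := by
        apply Finset.sum_eq_zero
        intro k hk
        rw [Finset.mem_Icc] at hk
        apply chi_of_not
        rintro ⟨h3, h4⟩
        apply hI
        have h5 := hy a k le_rfl hk.1 hk.2
        have h6 := hy k b hk.1 hk.2 le_rfl
        exact ⟨by linarith, by linarith⟩
      have hz2 : ∀ r : ℕ, ∑ n ∈ (Finset.Icc a b).filter (fun n => n + r ≤ b),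
          chi (y n) (y (n + r) - x) t = 0 := by
        intro r
        apply Finset.sum_eq_zero
        intro k hk
        rw [Finset.mem_filter, Finset.mem_Icc] at hk
        apply chi_of_not
        rintro ⟨h3, h4⟩
        apply hI
        have h5 := hy a k le_rfl hk.1.1 hk.1.2
        have h6 := hy (k + r) b (by omega) hk.2 le_rfl
        exact ⟨by linarith, by linarith⟩
      have hz3 : ∀ r : ℕ,
          ∑ n ∈ (Finset.Icc a b).filter (fun n => n + r ≤ b), chi (y (n + r) - x) (y n) t = 0 := by
        intro r
        apply Finset.sum_eq_zero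
        intro k hk
        rw [Finset.mem_filter, Finset.mem_Icc] at hk
        apply chi_of_not
        rintro ⟨h3, h4⟩
        apply hI
        have h5 := hy a (k + r) le_rfl (by omega) hk.2
        have h6 := hy k b hk.1.1 hk.1.2 le_rfl
        exact ⟨by linarith, by linarith⟩
      rw [hz1, chi_of_not hI]
      simp [hz2, hz3]
  have i0 : ∀ r : ℕ, Integrable fun t =>
      u r * ∑ n ∈ (Finset.Icc a b).filter (fun n => n + r ≤ b), chi (y n) (y (n + r) - x) t :=
    fun r => (integrable_finsetSum _ fun n _ => chi_int _ _).const_mul _
  have i0' : ∀ r : ℕ, Integrable fun t =>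
      v r * ∑ n ∈ (Finset.Icc a b).filter (fun n => n + r ≤ b), chi (y (n + r) - x) (y n) t :=
    fun r => (integrable_finsetSum _ fun n _ => chi_int _ _).const_mul _
  have i01 : ∀ r : ℕ, Integrable fun t =>
      (u r * ∑ n ∈ (Finset.Icc a b).filter (fun n => n + r ≤ b), chi (y n) (y (n + r) - x) t +
      v r * ∑ n ∈ (Finset.Icc a b).filter (fun n => n + r ≤ b), chi (y (n + r) - x) (y n) t) :=
    fun r => (i0 r).add (i0' r)
  have i1 : Integrable fun t => ∑ r ∈ Finset.Icc 1 P,
      (u r * ∑ n ∈ (Finset.Icc a b).filter (fun n => n + r ≤ b), chi (y n) (y (n + r) - x) t +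
      v r * ∑ n ∈ (Finset.Icc a b).filter (fun n => n + r ≤ b), chi (y (n + r) - x) (y n) t) :=
    integrable_finsetSum _ fun r _ => i01 r
  have j1 : Integrable fun t => ∑ n ∈ Finset.Icc a b, ∑ k ∈ Finset.Icc a b,
      chi (max (y n - x) (y k - x)) (min (y n) (y k)) t :=
    integrable_finsetSum _ fun n _ => integrable_finsetSum _ fun k _ => chi_int _ _
  have j2 : Integrable fun t => (2 * (m : ℝ) + 1) * ∑ n ∈ Finset.Icc a b, chi (y n - x) (y n) t :=
    (integrable_finsetSum _ fun n _ => chi_int _ _).const_mul _
  have j3 : Integrable fun t => (m : ℝ) * (m + 1) * chi (y a - x) (y b) t :=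
    (chi_int _ _).const_mul _
  have j12 : Integrable fun t => ∑ n ∈ Finset.Icc a b, ∑ k ∈ Finset.Icc a b,
      chi (max (y n - x) (y k - x)) (min (y n) (y k)) t -
        (2 * (m : ℝ) + 1) * ∑ n ∈ Finset.Icc a b, chi (y n - x) (y n) t := j1.sub j2
  have h := integral_mono i1 (j12.add j3) pt
  have r1 : ∫ t, ∑ r ∈ Finset.Icc 1 P,
      (u r * ∑ n ∈ (Finset.Icc a b).filter (fun n => n + r ≤ b), chi (y n) (y (n + r) - x) t +
      v r * ∑ n ∈ (Finset.Icc a b).filter (fun n => n + r ≤ b), chi (y (n + r) - x) (y n) t) =
      ∑ r ∈ Finset.Icc 1 P, (u r * ∑ n ∈ (Finset.Icc a b).filter (fun n => n + r ≤ b),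
        max 0 (y (n + r) - y n - x) +
      v r * ∑ n ∈ (Finset.Icc a b).filter (fun n => n + r ≤ b),
        max 0 (x - (y (n + r) - y n))) := by
    rw [integral_finsetSum _ fun r _ => i01 r]
    apply Finset.sum_congr rfl
    intro r _
    rw [integral_add (i0 r) (i0' r), integral_const_mul, integral_const_mul,
      integral_finsetSum _ fun n _ => chi_int _ _, integral_finsetSum _ fun n _ => chi_int _ _]
    congr 2
    · apply Finset.sum_congr rfl
      intro n _
      rw [integral_chi]
      congr 1
      ring
    · apply Finset.sum_congr rfl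
      intro n _
      rw [integral_chi]
      congr 1
      ring
  have r2 : ∫ t, ((∑ n ∈ Finset.Icc a b, ∑ k ∈ Finset.Icc a b,
      chi (max (y n - x) (y k - x)) (min (y n) (y k)) t -
        (2 * (m : ℝ) + 1) * ∑ n ∈ Finset.Icc a b, chi (y n - x) (y n) t) +
        (m : ℝ) * (m + 1) * chi (y a - x) (y b) t) =
      ∑ n ∈ Finset.Icc a b, ∑ k ∈ Finset.Icc a b, max 0 (x - |y n - y k|) -
        (2 * m + 1) * x * (Finset.Icc a b).card + (m : ℝ) * (m + 1) * (y b - y a + x) := by
    rw [integral_add j12 j3, integral_sub j1 j2, integral_const_mul, integral_const_mul,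
      integral_chi, integral_finsetSum _ fun n _ => chi_int _ _,
      integral_finsetSum _ fun n _ => integrable_finsetSum _ fun k _ => chi_int _ _]
    have e1 : ∑ n ∈ Finset.Icc a b, ∫ t, ∑ k ∈ Finset.Icc a b,
        chi (max (y n - x) (y k - x)) (min (y n) (y k)) t =
        ∑ n ∈ Finset.Icc a b, ∑ k ∈ Finset.Icc a b, max 0 (x - |y n - y k|) := by
      apply Finset.sum_congr rfl
      intro n _
      rw [integral_finsetSum _ fun k _ => chi_int _ _]
      apply Finset.sum_congr rfl
      intro k _
      rw [integral_chi]
      congr 1
      rcases le_total (y n) (y k) with h1 | h1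
      · rw [min_eq_left h1, max_eq_right (by linarith), abs_of_nonpos (by linarith)]
        ring
      · rw [min_eq_right h1, max_eq_left (by linarith), abs_of_nonneg (by linarith)]
        ring
    have e2 : ∑ n ∈ Finset.Icc a b, ∫ t, chi (y n - x) (y n) t = x * (Finset.Icc a b).card := by
      have : ∀ n ∈ Finset.Icc a b, ∫ t, chi (y n - x) (y n) t = x := by
        intro n _
        rw [integral_chi, max_eq_right (by linarith)]
        ring
      rw [Finset.sum_congr rfl this, Finset.sum_const, nsmul_eq_mul]
      ring
    have e3 : max 0 (y b - (y a - x)) = y b - y a + x := by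
      have := hy a b le_rfl hab le_rfl
      rw [max_eq_right (by linarith)]
      ring
    rw [e1, e2, e3]
    ring
  exact (le_of_eq r1.symm).trans (h.trans (le_of_eq r2))

end Pool.Agent.H707.NB
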